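import Pool.Agent.Lib.MP_0fa4a2_gt.BB.Met

/-! Inside a model of ZFC with a graded notion of smallness, a small tree base of a perfect space
cannot have the Baire property and split everywhere. -/

namespace Pool.Agent.Lib.MP_0fa4a2_gt.BB

open Pool.Agent.Lib.MP_2739cb_lc Pool.Agent.Lib.MP_783f50_lc Pool.Agent.Lib.MP_0fa4a2_gt

set_option synthInstance.maxSize 100000

universe v

variable {M : Type v} [ZM M]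

/-- Closure properties of one level of smallness. -/
structure Ax0 (Small : M → Prop) : Prop where
  sep : ∀ V : M, ∃ S : M, ∀ z, z ∈ S ↔ z ⊆ V ∧ Small z
  ct : ∀ z, Ctbl z → Small z
  w1 : Small (om1 M)
  un : ∀ I R U : M, Small I → (∀ i, i ∈ I → ∃ S, Small S ∧ ∀ z, op i z ∈ R → z ∈ S) →
    (∀ z, z ∈ U → ∃ i, i ∈ I ∧ op i z ∈ R) → Small U

/-- The graded principles; the levels are the countable ordinals. -/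
structure Bx (Sm : M → M → Prop) : Prop where
  sep : ∀ V : M, ∃ R : M, ∀ ξ z, op ξ z ∈ R ↔ ξ ∈ om1 M ∧ z ⊆ V ∧ Sm ξ z
  ct : ∀ ξ z, ξ ∈ om1 M → Ctbl z → Sm ξ z
  w1 : ∀ ξ, ξ ∈ om1 M → Sm ξ (om1 M)
  un : ∀ ξ I R U : M, Sm ξ I → (∀ i, i ∈ I → ∃ S, Sm ξ S ∧ ∀ z, op i z ∈ R → z ∈ S) →
    (∀ z, z ∈ U → ∃ i, i ∈ I ∧ op i z ∈ R) → Sm ξ U
  kill : ∀ ξ T : M, (∀ y, y ∉ ξ) → Sm ξ T → IsTr T → (∃ a, a ∈ T) → Split T → ¬ Baire T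
  dec : ∀ ξ z : M, (∃ y, y ∈ ξ) → (∀ y, y ∈ ξ → ∃ y', y' ∈ ξ ∧ y ∈ y') → Sm ξ z →
    ∃ I : M, Ctbl I ∧ (∀ S, S ∈ I → ∃ ζ, ζ ∈ ξ ∧ Sm ζ S) ∧ ∀ y, y ∈ z → ∃ S, S ∈ I ∧ y ∈ S
  refl : ∀ ξ ζ T In Fb : M, ζ ∈ ξ → (∀ y, y ∈ ξ → ζ ∉ y) → Sm ξ T → IsTr T → (∃ a, a ∈ T) →
    Baire T → ¬ RHyp (Sm ζ) T In Fb

variable {Small : M → Prop} {Sm : M → M → Prop} {τ X T : M}

theorem Bx.ax0 (h : Bx Sm) {ξ : M} (hξ : ξ ∈ om1 M) : Ax0 (Sm ξ) := by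
  refine ⟨fun V => ?_, fun z => h.ct ξ z hξ, h.w1 ξ hξ, h.un ξ⟩
  obtain ⟨R, hR⟩ := h.sep V
  obtain ⟨S, hS⟩ := exists_sep (pw V) fun z => op ξ z ∈ R
  exact ⟨S, fun z => (hS z).trans ⟨fun h1 => ((hR _ _).1 h1.2).2,
    fun h1 => ⟨mem_pw.2 h1.1, (hR _ _).2 ⟨hξ, h1⟩⟩⟩⟩

theorem Ax0.un' (h : Ax0 Small) {I U : M} (R : M → M → Prop) [DP M fun z : M × M => R z.1 z.2]
    (h1 : Small I) (h2 : ∀ i, i ∈ I → ∃ S, Small S ∧ ∀ z, z ∈ U → R i z → z ∈ S)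
    (h3 : ∀ z, z ∈ U → ∃ i, i ∈ I ∧ R i z) : Small U :=
  h.un I (rel I U R) U h1 (fun i hi => let ⟨S, h4, h5⟩ := h2 i hi
    ⟨S, h4, fun z hz => h5 z (op_mem_rel.1 hz).2.1 (op_mem_rel.1 hz).2.2⟩)
    fun z hz => let ⟨i, hi, h4⟩ := h3 z hz; ⟨i, hi, op_mem_rel.2 ⟨hi, hz, h4⟩⟩

theorem Ax0.mono (h : Ax0 Small) {I U : M} (h1 : Small I) (h2 : U ⊆ I) : Small U :=
  h.un' (fun i z => z = i) h1 (fun i _ => ⟨{i}, h.ct _ (ctbl_single i),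
    fun _ _ h3 => mem_single.2 h3⟩) fun z hz => ⟨z, h2 z hz, rfl⟩

/-- Point-countable families of nonempty sets in which members with a common point are
comparable. -/
structure Cy (T : M) : Prop where
  ne : ∀ t, t ∈ T → ∃ x, x ∈ t
  cmp : ∀ a b x, a ∈ T → b ∈ T → x ∈ a → x ∈ b → a ⊆ b ∨ b ⊆ a
  pc : ∀ x, Ctbl (sep T fun t => x ∈ t)

theorem Cy.mono (h : Cy T) {S : M} (hS : S ⊆ T) : Cy S :=
  ⟨fun t ht => h.ne t (hS t ht), fun a b x ha hb => h.cmp a b x (hS a ha) (hS b hb),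
    fun x => (h.pc x).mono fun t ht => mem_sep.2 ⟨hS t (mem_sep.1 ht).1, (mem_sep.1 ht).2⟩⟩

theorem Cy.of (h : Cx τ X T) : Cy T := ⟨h.ne, h.cmp, h.pc⟩

theorem Cy.tr (h : Cy T) : IsTr T := fun a b c ha hb hc h1 h2 =>
  let ⟨x, hx⟩ := h.ne c hc; h.cmp a b x ha hb (h1 x hx) (h2 x hx)

theorem Cy.min (h : Cy T) {a b x : M} (ha : a ∈ T) (hb : b ∈ T) (h1 : x ∈ a) (h2 : x ∈ b) :
    ∃ c, c ∈ T ∧ x ∈ c ∧ c ⊆ a ∧ c ⊆ b :=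
  (h.cmp a b x ha hb h1 h2).elim (fun h3 => ⟨a, ha, h1, sub_refl a, h3⟩)
    fun h3 => ⟨b, hb, h2, h3, sub_refl b⟩

/-- If all antichains are small, there is a small dense subset. -/
theorem dense_small (hA : Ax0 Small) (h : Cy T) (h3 : ∀ W, W ⊆ T → Anti W → Small W) :
    ∃ S, S ⊆ T ∧ Small S ∧ ∀ a, a ∈ T → ∃ c, c ∈ S ∧ c ⊆ a := by
  obtain ⟨C, c1, c2, c3⟩ := exists_clique (prd (om1 M) T) fun p q => ∀ α a β b : M,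
    p = op α a → q = op β b → (α = β → ∀ x, x ∈ a → x ∈ b → a = b) ∧ (β ∈ α → ¬ b ⊆ a)
  obtain ⟨S, hS⟩ := exists_sep T fun a => ∃ α, op α a ∈ C
  have s1 : S ⊆ T := fun a ha => ((hS a).1 ha).1
  have s2 : ∀ a, a ∈ T → ∃ c, c ∈ S ∧ c ⊆ a := fun a ha => by
    by_contra hc
    obtain ⟨x, hx⟩ := h.ne a ha
    have k1 : ∀ α b, op α b ∈ C → ¬ b ⊆ a := fun α b h4 h5 =>
      hc ⟨b, (hS b).2 ⟨(op_mem_prd.1 (c1 _ h4)).2, α, h4⟩, h5⟩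
    obtain ⟨f, hf⟩ := choice S (om1 M) (fun b α => op α b ∈ C) fun b hb =>
      let ⟨α, h4⟩ := ((hS b).1 hb).2; ⟨α, (op_mem_prd.1 (c1 _ h4)).1, h4⟩
    obtain ⟨γ, h4, h5⟩ := ((h.pc x).mono (Z' := sep S fun t => x ∈ t) fun t ht => by
      simp at ht; simp [ht, s1 t ht.1]).bdd (fun b => app f b) fun b hb => (hf b (mem_sep.1 hb).1).1
    have k2 : ∀ β b, op β b ∈ C → a ⊆ b → β ∈ γ := fun β b h6 h7 => by
      have h8 := op_mem_prd.1 (c1 _ h6)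
      have h9 := (hS b).2 ⟨h8.2, β, h6⟩
      have h10 := h5 b (mem_sep.2 ⟨h9, h7 x hx⟩)
      rcases od_om1.tri h8.1 (hf b h9).1 with h11 | h11 | h11
      · exact od_om1.mem h4 |>.trans h10 h11
      · exact h11 ▸ h10
      · exact absurd (sub_refl b) ((c2 _ _ h6 (hf b h9).2 _ _ _ _ rfl rfl).2 h11)
    have k3 : ∀ b y, op γ b ∈ C → y ∈ a → y ∉ b := fun b y h6 h7 h8 =>
      (h.cmp a b y ha (op_mem_prd.1 (c1 _ h6)).2 h7 h8).elim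
        (fun h9 => mem_irrefl _ (k2 _ _ h6 h9)) (k1 _ _ h6)
    refine k1 γ a (c3 _ (op_mem_prd.2 ⟨h4, ha⟩) (fun α b β c e1 e2 => ?_) fun q hq =>
      ⟨fun α b β c e1 e2 => ?_, fun α b β c e1 e2 => ?_⟩) (sub_refl a)
    · obtain ⟨rfl, rfl⟩ := op_inj.1 (e1.symm.trans e2)
      exact ⟨fun _ _ _ _ => rfl, fun h6 => absurd h6 (mem_irrefl _)⟩
    · obtain ⟨rfl, rfl⟩ := op_inj.1 e1
      subst e2
      exact ⟨fun e y h6 h7 => absurd h7 (k3 c y (e ▸ hq) h6), fun _ => k1 _ _ hq⟩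
    · obtain ⟨rfl, rfl⟩ := op_inj.1 e2
      subst e1
      exact ⟨fun e y h6 h7 => absurd h6 (k3 b y (e ▸ hq) h7),
        fun h6 h7 => mem_asymm' h6 (k2 _ _ hq h7)⟩
  exact ⟨S, s1, hA.un' (fun α a => op α a ∈ C) hA.w1 (fun α _ => ⟨sep T fun a => op α a ∈ C,
    h3 _ (fun a ha => (mem_sep.1 ha).1) fun a b x ha hb => (c2 _ _ (mem_sep.1 ha).2
      (mem_sep.1 hb).2 _ _ _ _ rfl rfl).1 rfl x, fun z hz h4 => mem_sep.2 ⟨s1 z hz, h4⟩⟩)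
    fun z hz => let ⟨α, h4⟩ := ((hS z).1 hz).2; ⟨α, (op_mem_prd.1 (c1 _ h4)).1, h4⟩, s2⟩

/-- If there are large antichains everywhere, the hypotheses of the reflection principle hold. -/
theorem wide (hA : Ax0 Small) (h : Cy T) (h2 : Baire T) {p : M} (hp : ∀ t, t ∈ T → app p t ∈ t)
    (hop : ∀ G y, G ∈ τ → y ∈ T → app p y ∈ G → ∃ c, c ∈ T ∧ app p y ∈ c ∧ c ⊆ G)
    (hgd : ∀ A, A ⊆ T → ∃ F, F ⊆ τ ∧ Ctbl F ∧ ∀ t x, t ∈ T → x ∈ t →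
      ((∀ a, a ∈ A → x ∉ a) ↔ ∀ G, G ∈ F → x ∈ G))
    (h3 : ∀ t, t ∈ T → ∃ W, W ⊆ bel T t ∧ Anti W ∧ ¬ Small W) : ∃ In Fb, RHyp Small T In Fb := by
  obtain ⟨Sm, hSm⟩ := hA.sep T
  obtain ⟨W, hW⟩ := choice T (pw T) (fun t W => (∀ w, w ∈ W → w ⊆ t) ∧ Anti W ∧ W ∉ Sm)
    fun t ht => let ⟨W, h4, h5, h6⟩ := h3 t ht
      ⟨W, mem_pw.2 fun w hw => (mem_bel.1 (h4 w hw)).1, fun w hw => (mem_bel.1 (h4 w hw)).2, h5,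
        fun h7 => h6 ((hSm W).1 h7).2⟩
  have wT : ∀ t w, t ∈ T → w ∈ app W t → w ∈ T := fun t w ht => mem_pw.1 (hW t ht).1 w
  let Th : M → M → Prop := fun y v => ∀ a b, a ∈ app W y → b ∈ app W y → a ⊆ v → b ⊆ v → a = b
  obtain ⟨In, -, hI⟩ := exists_rel T T fun y d => app p y ∈ d
  obtain ⟨Fb, -, hF⟩ := exists_rel T T fun v y => app p y ∉ v ∧
    ∀ y', y' ∈ T → app p y ∈ y' → v ⊆ y' →
      ∀ a b, a ∈ app W y' → b ∈ app W y' → a ⊆ v → b ⊆ v → a = b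
  have w1 : ∀ d S, d ∈ T → Small S → ∀ R : M → M → Prop, (DP M fun z : M × M => R z.1 z.2) →
      (∀ v, v ∈ S → ∃ N, Ctbl N ∧ ∀ w, w ∈ app W d → R v w → w ∈ N) →
      ∃ w, w ∈ app W d ∧ ∀ v, v ∈ S → ¬ R v w := fun d S hd hS R _ h4 => by
    by_contra hc
    push Not at hc
    exact (hW d hd).2.2.2 ((hSm _).2 ⟨mem_pw.1 (hW d hd).1, hA.un' R hS
      (fun v hv => let ⟨N, h5, h6⟩ := h4 v hv; ⟨N, hA.ct N h5, h6⟩) hc⟩)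
  refine ⟨In, Fb, fun y d0 S hy hd0 hS hs h4 => ?_,
    fun d S hd hS hs => ?_, fun v y hv hy h4 h5 => ?_, fun y hy => (hI _ _).2 ⟨hy, hy, hp y hy⟩,
    fun y hy => ⟨_, hA.ct _ (h.pc (app p y)), fun d hd h4 => mem_sep.2 ⟨hd, ((hI _ _).1 h4).2.2⟩⟩,
    fun D hD h4 h5 => ?_⟩
  · obtain ⟨d, hd, h5, h6, h7⟩ := h.min hd0 hy ((hI _ _).1 h4).2.2 (hp y hy)
    obtain ⟨w, h8, h9⟩ := w1 d S hd hS (fun v w => v ⊆ w ∨ (w ⊆ v ∧ Th d v)) inferInstance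
      fun v hv => by
        obtain ⟨N, h8, h9⟩ := ctbl_subs (U := app W d) (fun w => v ⊆ w) fun a b ha hb h8 h9 =>
          let ⟨x, hx⟩ := h.ne v (hs v hv); (hW d hd).2.2.1 a b x ha hb (h8 x hx) (h9 x hx)
        obtain ⟨N', h10, h11⟩ := ctbl_subs (U := app W d) (fun w => w ⊆ v ∧ Th d v)
          fun a b ha hb h8 h9 => h8.2 a b ha hb h8.1 h9.1
        exact ⟨N ∪ N', h8.union h10, fun w hw h12 => mem_union.2 (h12.imp (h9 w hw) (h11 w hw))⟩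
    have h10 := (hW d hd).2.1 w h8
    refine ⟨w, wT d w hd h8, sub_trans h10 h6, fun v hv h11 =>
      ⟨fun h12 => h9 v hv (Or.inl h12), fun h12 => ?_⟩⟩
    rcases h11 with h11 | h11
    · obtain ⟨-, -, h13, h14⟩ := (hF _ _).1 h11
      exact h9 v hv (Or.inr ⟨h12, h14 d hd h5 ((h.tr _ _ _ (hs v hv) hd (wT d w hd h8)
        h12 h10).resolve_right fun h15 => h13 (h15 _ h5))⟩)
    · exact (h.tr _ _ _ (hs v hv) hy (wT d w hd h8) h12 (sub_trans h10 h7)).elim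
        h11.1 h11.2
  · obtain ⟨w, h8, h9⟩ := w1 d S hd hS (fun y w => app p y ∈ w) inferInstance
      fun y hy => ctbl_subs _ fun a b ha hb => (hW d hd).2.2.1 a b _ ha hb
    have h10 := wT d w hd h8
    obtain ⟨x, hx⟩ := h.ne w h10
    obtain ⟨v, h11, h12, h13⟩ := h2.ctbl (h.pc x) Th
      (fun i a b _ _ _ h4 h5 c e hc he h6 h7 => h4 c e hc he (sub_trans h6 h5) (sub_trans h7 h5))
      (fun i a hi ha => by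
        have h4 := (mem_sep.1 hi).1
        by_cases h5 : ∃ c, c ∈ app W i ∧ c ⊆ a
        · obtain ⟨c, h5, h6⟩ := h5
          have k : ∀ e, e ∈ app W i → e ⊆ c → e = c := fun e he h7 =>
            let ⟨y, hy⟩ := h.ne e (wT i e h4 he); (hW i h4).2.2.1 e c y he h5 hy (h7 y hy)
          exact ⟨c, wT i c h4 h5, h6, fun e e' he he' h7 h8 => (k e he h7).trans (k e' he' h8).symm⟩
        · exact ⟨a, ha, sub_refl a, fun e _ he _ h6 _ => absurd ⟨e, he, h6⟩ h5⟩) w h10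
    refine ⟨v, h11, sub_trans h12 ((hW d hd).2.1 w h8), fun y hy => (hF _ _).2 ⟨h11, hs y hy,
      fun h14 => h9 y hy (h12 _ h14), fun y' h14 h15 h16 => h13 y' (mem_sep.2 ⟨h14, ?_⟩)⟩⟩
    exact (h.tr _ _ _ h10 h14 h11 h12 h16).resolve_right
      (fun h17 => h9 y hy (h17 _ h15)) x hx
  · have h6 := ((hI _ _).1 h4).2.2
    rcases h5 with h5 | h5
    · exact ((hF _ _).1 h5).2.2.1 h6
    · exact (h.cmp v y _ hv hy h6 (hp y hy)).elim h5.1 h5.2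
  · obtain ⟨F, h6, ⟨f, h7⟩, h8⟩ := hgd (T \ D) fun a ha => (mem_diff.1 ha).1
    obtain ⟨O, -, hO⟩ := exists_rel (om M) T fun n d => app f n ∈ F → d ⊆ app f n
    refine ⟨O, fun n a b hn h9 h10 h11 => (hO _ _).2 ⟨hn, hD b h11, fun h12 =>
      sub_trans h10 (((hO _ _).1 h9).2.2 h12)⟩, fun n a hn ha => ?_, fun a ha h9 => ?_⟩
    · by_cases h9 : app f n ∈ F
      swap
      · exact ⟨a, sub_refl a, ha, (hO _ _).2 ⟨hn, hD a ha, fun h10 => absurd h10 h9⟩⟩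
      obtain ⟨y, hy, h10, h11⟩ := h4 a ha
      obtain ⟨c, h12, h13, h14⟩ := hop _ _ (h6 _ h9) hy ((h8 y _ hy (hp y hy)).1
        (fun e he h12 => (mem_diff.1 he).2 (h11 e (mem_diff.1 he).1
          ((hI _ _).2 ⟨hy, (mem_diff.1 he).1, h12⟩))) _ h9)
      obtain ⟨b, h15, h16, h17, h18⟩ := h.min (hD a ha) h12 ((hI _ _).1 h10).2.2 h13
      exact ⟨b, h17, h11 b h15 ((hI _ _).2 ⟨hy, h15, h16⟩),
        (hO _ _).2 ⟨hn, h15, fun _ => sub_trans h18 h14⟩⟩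
    · obtain ⟨v, h10, h11, h12⟩ := h5 a ha
      obtain ⟨z, hz⟩ := h.ne v h10
      refine (h8 v z h10 hz).2 (fun G hG => ?_) v (mem_diff.2 ⟨h10, h12⟩) hz
      obtain ⟨n, hn, rfl⟩ := h7 G hG
      exact ((hO _ _).1 (h9 n hn)).2.2 hG z (h11 z hz)

theorem no_bad' (hB : Bx Sm) (h : Cx τ X T) {ξ0 : M} (k0 : ξ0 ∈ om1 M) (k1 : Sm ξ0 T)
    (h0 : ∃ a, a ∈ T) (h1 : Split T) (h2 : Baire T) : False := by
  obtain ⟨R, hR⟩ := hB.sep T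
  obtain ⟨ξ, hξ, ⟨t, ht, S, hS, hd⟩, hm⟩ := exists_min (om1 M) (fun ξ => ∃ t, t ∈ T ∧ ∃ S,
      op ξ S ∈ R ∧ ∀ a, a ∈ T → a ⊆ t → ∃ c, c ∈ S ∧ c ⊆ a) (by
    obtain ⟨a, ha⟩ := h0
    exact ⟨ξ0, k0, a, ha, T, (hR _ _).2 ⟨k0, sub_refl T, k1⟩, fun b hb _ => ⟨b, hb, sub_refl b⟩⟩)
  obtain ⟨-, s1, s2⟩ := (hR _ _).1 hS
  have m1 : ∀ ζ, ζ ∈ ξ → ∀ t, t ∈ T → ∀ S, Sm ζ S →
      ¬ ∀ a, a ∈ T → a ⊆ t → ∃ c, c ∈ S ∧ c ∈ T ∧ c ⊆ a := fun ζ h3 t h4 S h5 h6 => by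
    have h7 := od_om1.trans hξ h3
    exact hm ζ h3 h7 ⟨t, h4, S ∩ T, (hR _ _).2 ⟨h7, fun z hz => (mem_inter.1 hz).2,
      (hB.ax0 h7).mono h5 fun z hz => (mem_inter.1 hz).1⟩, fun a h8 h9 =>
        let ⟨c, h10, h11, h12⟩ := h6 a h8 h9; ⟨c, mem_inter.2 ⟨h10, h11⟩, h12⟩⟩
  have hy := Cy.of h
  have t1 : bel T t ⊆ T := fun a ha => (mem_bel.1 ha).1
  have t2 : bel S t ⊆ bel T t := fun a ha => mem_bel.2 ⟨s1 a (mem_bel.1 ha).1, (mem_bel.1 ha).2⟩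
  have t3 : ∀ b, b ∈ T → b ⊆ t → ∃ c, c ∈ bel S t ∧ c ⊆ b := fun b hb h3 =>
    let ⟨c, h4, h5⟩ := hd b hb h3; ⟨c, mem_bel.2 ⟨h4, sub_trans h5 h3⟩, h5⟩
  have t4 : Sm ξ (bel S t) := (hB.ax0 hξ).mono s2 fun a ha => (mem_bel.1 ha).1
  by_cases c1 : ∀ y, y ∉ ξ
  · have h3 : ∀ a b, a ∈ bel S t → b ∈ T → b ⊆ a → ∃ c, c ∈ bel S t ∧ c ⊆ b :=
      fun a b ha hb h3 => t3 b hb (sub_trans h3 (mem_bel.1 ha).2)
    exact hB.kill ξ _ c1 t4 (hy.mono (sub_trans t2 t1)).tr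
      (let ⟨c, hc, _⟩ := t3 t ht (sub_refl t); ⟨c, hc⟩)
      (h1.dense hy.tr (sub_trans t2 t1) h3) (h2.dense hy.tr (sub_trans t2 t1) h3)
  push Not at c1
  by_cases c2 : ∀ y, y ∈ ξ → ∃ y', y' ∈ ξ ∧ y ∈ y'
  · obtain ⟨I, i1, i2, i3⟩ := hB.dec ξ _ c1 c2 t4
    obtain ⟨b, h3, h4, h5⟩ := h2.ctbl i1 (fun S a => ∀ c, c ∈ S → c ∈ T → ¬ c ⊆ a)
      (fun S a b _ _ _ h3 h4 c h5 h6 h7 => h3 c h5 h6 (sub_trans h7 h4))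
      (fun S a h3 ha => by
        obtain ⟨ζ, h4, h5⟩ := i2 S h3
        have h6 := m1 ζ h4 a ha S h5
        push Not at h6
        exact h6) t ht
    obtain ⟨c, h6, h7⟩ := t3 b h3 h4
    obtain ⟨S', h8, h9⟩ := i3 c h6
    exact h5 S' h8 c h9 (t1 c (t2 c h6)) h7
  push Not at c2
  obtain ⟨ζ, z1, z2⟩ := c2
  have z3 := od_om1.trans hξ z1
  obtain ⟨p0, hp0⟩ := choice (bel S t) X (fun s x => x ∈ s) fun s hs =>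
    let ⟨x, hx⟩ := h.ne s (t1 s (t2 s hs)); ⟨x, h.sub s (t1 s (t2 s hs)) x hx, hx⟩
  obtain ⟨T', hT⟩ := exists_sep T fun e => ∃ s, s ∈ bel S t ∧ app p0 s ∈ e ∧ e ⊆ t
  have u1 : T' ⊆ T := fun e he => ((hT e).1 he).1
  have u2 : bel S t ⊆ T' := fun s hs =>
    (hT s).2 ⟨t1 s (t2 s hs), s, hs, (hp0 s hs).2, (mem_bel.1 hs).2⟩
  have u3 : ∀ e, e ∈ T' → e ⊆ t := fun e he => let ⟨_, _, _, h3⟩ := ((hT e).1 he).2; h3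
  have u4 : ∀ a b, a ∈ T' → b ∈ T → b ⊆ a → ∃ c, c ∈ T' ∧ c ⊆ b := fun a b ha hb h3 =>
    let ⟨c, h4, h5⟩ := t3 b hb (sub_trans h3 (u3 a ha)); ⟨c, u2 c h4, h5⟩
  obtain ⟨p, hp⟩ := choice T' X (fun e x => x ∈ e ∧ ∃ s, s ∈ bel S t ∧ x = app p0 s) fun e he =>
    let ⟨s, h3, h4, _⟩ := ((hT e).1 he).2; ⟨_, (hp0 s h3).1, h4, s, h3, rfl⟩
  have u5 := h2.dense hy.tr u1 u4
  obtain ⟨In, Fb, h3⟩ := wide (τ := τ) (hB.ax0 z3) (hy.mono u1) u5 (fun e he => (hp e he).2.1)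
    (fun G y h3 h4 h5 => by
      obtain ⟨c, h6, h7, h8⟩ := h.op G _ h3 (hp y h4).1 h5
      obtain ⟨d, h9, h10, h11, h12⟩ := hy.min h6 (u1 y h4) h7 (hp y h4).2.1
      obtain ⟨s, h13, h14⟩ := (hp y h4).2.2
      exact ⟨d, (hT d).2 ⟨h9, s, h13, h14 ▸ h10, sub_trans h12 (u3 y h4)⟩, h10, sub_trans h11 h8⟩)
    (fun A hA => by
      obtain ⟨F, h3, h4, h5⟩ := h.gd A (sub_trans hA u1)
      exact ⟨F, h3, h4, fun e x he hx => h5 x (h.sub e (u1 e he) x hx)⟩)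
    (fun e he => by
      by_contra hc
      push Not at hc
      obtain ⟨S1, h3, h4, h5⟩ := dense_small (hB.ax0 z3)
        ((hy.mono u1).mono (S := bel T' e) fun a ha => (mem_bel.1 ha).1) hc
      refine m1 ζ z1 e (u1 e he) S1 h4 fun a h6 h7 => ?_
      obtain ⟨c, h8, h9⟩ := u4 e a he h6 h7
      obtain ⟨d, h10, h11⟩ := h5 c (mem_bel.2 ⟨h8, sub_trans h9 h7⟩)
      exact ⟨d, h10, u1 d (mem_bel.1 (h3 d h10)).1, sub_trans h11 h9⟩)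
  refine hB.refl ξ ζ T' In Fb z1 z2 ((hB.ax0 hξ).un' (fun s e => app p0 s ∈ e) t4
    (fun s _ => ⟨_, hB.ct ξ _ hξ (h.pc (app p0 s)), fun e he h4 => mem_sep.2 ⟨u1 e he, h4⟩⟩)
    fun e he => let ⟨s, h4, h5, _⟩ := ((hT e).1 he).2; ⟨s, h4, h5⟩) (hy.mono u1).tr
    (let ⟨c, hc, _⟩ := t3 t ht (sub_refl t); ⟨c, u2 c hc⟩) u5 h3

theorem nb_of (hB : Bx Sm) (k0 : ∀ U, U ∈ τ → (∃ x, x ∈ U) →
    ∃ V, V ∈ τ ∧ (∃ x, x ∈ V) ∧ V ⊆ U ∧ ∃ ξ, ξ ∈ om1 M ∧ Sm ξ V) (T : M) (hT : T ⊆ τ)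
    (h : Cx τ X T) : NB T := fun s hs h1 h2 => by
  obtain ⟨V, v1, ⟨x, v2⟩, v3, ξ, v4, v5⟩ := k0 s (hT s hs) (h.ne s hs)
  obtain ⟨t, t1, -, t2⟩ := h.op V x v1 (h.sub s hs x (v3 x v2)) v2
  have h3 : bel T t ⊆ bel T s := fun a ha =>
    mem_bel.2 ⟨(mem_bel.1 ha).1, sub_trans (mem_bel.1 ha).2 (sub_trans t2 v3)⟩
  have h4 : ∀ a b, a ∈ bel T t → b ∈ bel T s → b ⊆ a → ∃ c, c ∈ bel T t ∧ c ⊆ b :=
    fun a b ha hb h4 => ⟨b, mem_bel.2 ⟨(mem_bel.1 hb).1, sub_trans h4 (mem_bel.1 ha).2⟩, sub_refl b⟩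
  have h5 := (Cy.of (h.res hs)).tr
  exact no_bad' hB (h.res t1) v4 ((hB.ax0 v4).un' (fun x t => x ∈ t) v5
    (fun x _ => ⟨_, hB.ct ξ _ v4 (h.pc x), fun _ ht h3 => mem_sep.2 ⟨(mem_bel.1 ht).1, h3⟩⟩)
    fun a ha => let ⟨y, hy⟩ := h.ne a (mem_bel.1 ha).1; ⟨y, t2 y ((mem_bel.1 ha).2 y hy), hy⟩)
    ⟨t, mem_bel.2 ⟨t1, sub_refl t⟩⟩ (h1.dense h5 h3 h4) (h2.dense h5 h3 h4)

/-- The image of a small set under an injection read backwards. -/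
theorem Ax0.of_cardLe (h : Ax0 Small) {A B : M} (h1 : Small B) (h2 : CardLe (EE M) A B) :
    Small A := by
  obtain ⟨f, h3, h4⟩ := h2
  refine h.un' (fun b a => op a b ∈ f) h1 (fun b _ => ?_) fun a ha => ?_
  · obtain ⟨N, h5, h6⟩ := ctbl_subs (U := A) (fun a => op a b ∈ f) fun a a' _ _ h5 h6 =>
      h4 a a' b (app_iff.2 h5) (app_iff.2 h6)
    exact ⟨N, h.ct N h5, h6⟩
  · obtain ⟨b, h5, -⟩ := h3.2 a ha
    exact ⟨b, (ZM.zfc.app_mem h3 h5).2, app_iff.1 h5⟩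

theorem Ax0.of_cardEq (h : Ax0 Small) {A B : M} (h1 : Small A) (h2 : CardEq (EE M) A B) :
    Small B := by
  obtain ⟨f, ⟨h3, -⟩, h4⟩ := h2
  refine h.un' (fun a b => op a b ∈ f) h1 (fun a _ => ?_) fun b hb => ?_
  · obtain ⟨N, h5, h6⟩ := ctbl_subs (U := B) (fun b => op a b ∈ f) fun b b' _ _ h5 h6 =>
      ZM.zfc.app_unique h3 (app_iff.2 h5) (app_iff.2 h6)
    exact ⟨N, h.ct N h5, h6⟩
  · obtain ⟨a, h5⟩ := h4 b hb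
    exact ⟨a, (ZM.zfc.app_mem h3 h5).1, app_iff.1 h5⟩

end Pool.Agent.Lib.MP_0fa4a2_gt.BB
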