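import Pool.Agent.Lib.MP_0fa4a2_gt.BB.Ref
import Pool.Agent.Lib.MP_0fa4a2_gt.BB.Int

/-! The graded principles hold in the final model. -/

namespace Pool.Agent.Lib.MP_0fa4a2_gt.BB

open Pool.Agent.Lib.MP_2739cb_lc Pool.Agent.Lib.MP_783f50_lc Pool.Agent.Lib.MP_0fa4a2_gt
  Nm Cardinal Set

set_option synthInstance.maxSize 100000

universe u v

section General

variable {P : Type u} [Preorder P] [OrderTop P] (lam : W1.{u} → Cardinal.{u})

noncomputable def smR (x Z : Nm P) : RO P :=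
  RO.ex fun ξ : W1.{u} => (RO.eq x (nw ξ)).and (smallR (lam ξ) Z)

instance (Z : Nm P) : MP_2739cb_lc.Ext fun x => smR lam x Z := by unfold smR; infer_instance

instance (x : Nm P) : MP_2739cb_lc.Ext fun Z => smR lam x Z := by unfold smR; infer_instance

def SmL (x z : MP_2739cb_lc.Mod P) : Prop := T (smR lam (rep x) (rep z))

theorem T_sm (x Z : Nm P) : T (smR lam x Z) ↔ SmL lam (cls x) (cls Z) :=
  ⟨fun h => T_subst (fun Z => smR lam (rep (cls x)) Z) (cls_rep _).symm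
      (T_subst (fun x => smR lam x Z) (cls_rep _).symm h),
    fun h => T_subst (fun Z => smR lam x Z) (cls_rep _)
      (T_subst (fun x => smR lam x (rep (cls Z))) (cls_rep _) h)⟩

variable {lam}

theorem smR_intro {x Z : Nm P} {ξ : W1.{u}} {p : P} (h1 : FEq x (nw ξ) p)
    (h2 : (smallR (lam ξ) Z).s p) : (smR lam x Z).s p := RO.ex_intro ξ ⟨h1, h2⟩

theorem smR_lev {x Z : Nm P} {ξ : W1.{u}} {p : P} (h1 : FEq x (nw ξ) p)
    (h2 : (smR lam x Z).s p) : (smallR (lam ξ) Z).s p := RO.reg fun q hq => by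
  obtain ⟨r, hr, ζ, h3, h4⟩ := h2 q hq
  obtain rfl := nw_inj ((h1.mono (hr.trans hq)).symm.trans h3)
  exact ⟨r, hr, h4⟩

noncomputable def nm {o : Ordinal.{u}} (a : o.ToType) : Nm P :=
  on (Ordinal.typein (α := o.ToType) (· < ·) a)

theorem nm_mem {o : Ordinal.{u}} (a : o.ToType) (p : P) : FMem (nm a) (on o) p :=
  on_mem (Ordinal.typein_lt_self a) p

theorem mem_on' {x : Nm P} {o : Ordinal.{u}} {p : P} (h : FMem x (on o) p) :
    ∀ q, q ≤ p → ∃ r, r ≤ q ∧ ∃ a : o.ToType, FEq x (nm a) r := by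
  intro q hq
  obtain ⟨r, hr, a, ha, h1⟩ := mem_on h q hq
  obtain ⟨b, rfl⟩ := Ordinal.typein_surj (α := o.ToType) (· < ·) (o := a) (by simpa using ha)
  exact ⟨r, hr, b, h1⟩

theorem nm_inj {o : Ordinal.{u}} {a b : o.ToType} {p : P} (h : FEq (nm a) (nm b) p) : a = b :=
  Ordinal.typein_injective _ (on_inj h)

end General

variable {k : Cardinal.{u}} {Q K : Type u} [Preorder Q] [OrderTop Q] {Λ : Lv k K}
  [hF : Fact (First k Q)]

theorem bx_un (ξ I R U : MP_2739cb_lc.Mod (Tri Λ Q)) (h1 : SmL Λ.lam ξ I)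
    (h2 : ∀ i, i ∈ I → ∃ S : MP_2739cb_lc.Mod (Tri Λ Q), SmL Λ.lam ξ S ∧ ∀ z, op i z ∈ R → z ∈ S)
    (h3 : ∀ z, z ∈ U → ∃ i, i ∈ I ∧ op i z ∈ R) : SmL Λ.lam ξ U := by
  have H2 : T (RO.all fun i => RO.imp (RO.mem i (rep I)) (RO.ex fun S => RO.and
      (smR Λ.lam (rep ξ) S) (RO.all fun z => RO.imp (appR (rep R) i z) (RO.mem z S)))) := by
    simpa only [T_all, T_imp, T_and, T_ex, T_app', T_mem', T_sm, cls_rep] using h2
  have H3 : T (RO.all fun z => RO.imp (RO.mem z (rep U))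
      (RO.ex fun i => RO.and (RO.mem i (rep I)) (appR (rep R) i z))) := by
    simpa only [T_all, T_imp, T_and, T_ex, T_app', T_mem', cls_rep] using h3
  refine ((T_and _ _).2 ⟨h1, H2⟩).mono₂ H3 fun p ⟨k0, k2⟩ k3 p0 h0 => ?_
  obtain ⟨p1, h0', ζ, e, k1⟩ := k0 p0 h0
  have h4 := h0'.trans h0
  obtain ⟨p2, h5, ι, h6, C, h7⟩ := k1 p1 le_rfl
  obtain ⟨q, h8, ι', h9, F, h10⟩ := small_cover ζ h6
    (fun j (a : Σ ι : {ι : Type u // #ι < Λ.lam ζ}, ι.1 → Nm (Tri Λ Q)) c => ∀ z r, r ≤ c →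
      FMem (C j) (rep I) r → (appR (rep R) (C j) z).s r → ∃ t, t ≤ r ∧ ∃ i, FEq z (a.2 i) t)
    (fun _ _ _ _ h h' z r hr => h' z r (hr.trans h)) p2 fun j r hr => by
      obtain ⟨t, h8, h9 | h9⟩ := RO.decide (RO.mem (C j) (rep I)) r
      · obtain ⟨w, h10, S, h11, h12⟩ := k2 _ t (h8.trans (hr.trans (h5.trans h4))) h9 t le_rfl
        obtain ⟨w1, h13, ι1, h14, C1, h15⟩ :=
          smR_lev (FEq.mono e (h10.trans (h8.trans (hr.trans h5)))) h11 w le_rfl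
        exact ⟨w1, h13.trans (h10.trans h8), ⟨⟨ι1, h14⟩, C1⟩, fun z v hv _ h16 =>
          h15 z v hv (h12 z v (hv.trans h13) h16)⟩
      · exact ⟨t, h8, ⟨⟨ι, h6⟩, C⟩, fun z v hv h10 => absurd h10 (h9 v hv)⟩
  refine ⟨q, h8.trans (h5.trans h0'), ζ, FEq.mono e (h8.trans h5), small_intro
    (ι := Σ i, (F i).1.1) (by
      rw [mk_sigma]; exact sum_lt_of_isRegular (Λ.reg ζ) h9 fun i => (F i).1.2)
    (fun i => (F i.1).2 i.2) fun z r hr hz => ?_⟩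
  obtain ⟨t, h11, i, h12, h13⟩ := k3 z r (hr.trans (h8.trans (h5.trans h4))) hz r le_rfl
  obtain ⟨t1, h14, j, h15⟩ := h7 i t (h11.trans (hr.trans h8)) h12
  obtain ⟨t2, h16, i', h17⟩ := h10 j t1 (h14.trans (h11.trans hr))
  obtain ⟨t3, h18, l, h19⟩ := h17 z t2 le_rfl
    ((FMem.mono h12 (h16.trans h14)).subst_left (h15.mono h16))
    (app_eq' (RO.mono h13 (h16.trans h14)) (h15.mono h16) (FEq.refl _ _))
  exact ⟨t3, h18.trans (h16.trans (h14.trans h11)), ⟨i', l⟩, h19⟩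

theorem bx_kill (ξ V : MP_2739cb_lc.Mod (Tri Λ Q)) (h0 : ∀ y, y ∉ ξ) (h1 : SmL Λ.lam ξ V)
    (h2 : IsTr V) (h3 : ∃ a, a ∈ V) (h4 : Split V) (h5 : Baire V) : False := by
  have H : T (RO.and (smR Λ.lam (rep ξ) (rep V)) (RO.and
      (RO.all fun y => RO.not (RO.mem y (rep ξ))) (RO.and (trR (rep V)) (RO.and
      (RO.ex fun a => RO.mem a (rep V)) (RO.and (splitR (rep V)) (baireR (rep V))))))) := by
    simp only [↓T_tr, ↓T_split, ↓T_baire, T_and, T_ex, T_all, T_not, T_mem', cls_rep]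
    exact ⟨h1, h0, h2, h3, h4, h5⟩
  obtain ⟨p, k0, k2⟩ := H.nonempty
  obtain ⟨p1, hp, ζ, e, k1⟩ := k0 p le_rfl
  obtain ⟨q, hq, ι, k3, C, k4⟩ := k1 p1 le_rfl
  obtain ⟨k9, k5, k6, k7, k8⟩ := RO.mono k2 (hq.trans hp)
  obtain ⟨_, B, h⟩ := exists_sp k6 k4
  exact no_small (k3.trans_eq (Λ.zero ζ fun η h6 => k9 _ q le_rfl
    ((nw_mem_nw h6 q).subst_right (FEq.mono e hq).symm))) (fun a => sub_rfl _ _) LeB.tr (h.tree k5)
    (h.split k7) (h.baire k8)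

theorem bx_dec (ξ z : MP_2739cb_lc.Mod (Tri Λ Q)) (h0 : ∃ y, y ∈ ξ)
    (h1 : ∀ y, y ∈ ξ → ∃ y', y' ∈ ξ ∧ y ∈ y') (h2 : SmL Λ.lam ξ z) :
    ∃ I : MP_2739cb_lc.Mod (Tri Λ Q), Ctbl I ∧ (∀ S, S ∈ I → ∃ ζ, ζ ∈ ξ ∧ SmL Λ.lam ζ S) ∧
      ∀ y, y ∈ z → ∃ S, S ∈ I ∧ y ∈ S := by
  obtain ⟨ξ, rfl⟩ := cls_surj ξ
  obtain ⟨z, rfl⟩ := cls_surj z
  have H : T (RO.and (smR Λ.lam ξ z) (RO.and (RO.ex fun y => RO.mem y ξ)
      (RO.all fun y => RO.imp (RO.mem y ξ) (RO.ex fun y' => RO.and (RO.mem y' ξ) (RO.mem y y'))))) := by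
    simp only [T_and, T_ex, T_all, T_imp, T_mem', T_sm, cls_rep]
    exact ⟨h2, h0, h1⟩
  have H2 : T (RO.ex fun I => RO.and (covR I) (RO.and
      (RO.all fun S => RO.imp (RO.mem S I) (RO.ex fun ζ => RO.and (RO.mem ζ ξ) (smR Λ.lam ζ S)))
      (RO.all fun y => RO.imp (RO.mem y z) (RO.ex fun S => RO.and (RO.mem S I) (RO.mem y S))))) := by
    refine H.mono fun p ⟨k0, k1, k2⟩ p0 hp => ?_
    obtain ⟨p1, h3, η, e, k3⟩ := k0 p0 hp
    obtain ⟨q, h4, ι, k4, C, k5⟩ := k3 p1 le_rfl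
    have h5 := h4.trans (h3.trans hp)
    have e' := FEq.mono e h4
    obtain ⟨F, f1, f2⟩ := Λ.split (by
      obtain ⟨r, h6, y, h7⟩ := k1 q h5
      obtain ⟨-, -, a, h8, -⟩ := mem_nw (FMem.subst_right h7 (e'.mono h6)) r le_rfl
      exact ⟨a, h8⟩) k4
    refine ⟨q, h4.trans h3, hat (fun ζ : Iio η => hat C (F ζ)) Set.univ, cov_hat
      (countable_univ_iff.2 (countable_Iio η).to_subtype) q, fun S r hr h6 t ht => ?_,
      fun y r hr h6 t ht => ?_⟩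
    · obtain ⟨w, h7, ζ, -, h8⟩ := of_mem_hat h6 t ht
      have h9 := h7.trans (ht.trans hr)
      obtain ⟨w1, h10, y, h11, h12⟩ := k2 _ w (h9.trans h5)
        ((nw_mem_nw ζ.2 w).subst_right (e'.mono h9).symm) w le_rfl
      obtain ⟨w2, h13, a, -, h14⟩ := mem_nw (FMem.subst_right h11 (e'.mono (h10.trans h9))) w1 le_rfl
      exact ⟨w2, h13.trans (h10.trans h7), y, FMem.mono h11 h13, smR_intro h14
        (Ext.subst (smallR (Λ.lam a)) (h8.mono (h13.trans h10)).symm (small_hat ((f1 ζ).trans_lt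
          (Λ.pow _ _ (nw_lt ((FMem.mono h12 h13).subst_right h14)))) w2))⟩
    · obtain ⟨w, h7, i, h8⟩ := k5 y t (ht.trans hr) (FMem.mono h6 ht)
      obtain ⟨ζ, h9⟩ := f2 i
      exact ⟨w, h7, hat C (F ζ), mem_hat (B := fun ζ : Iio η => hat C (F ζ)) (mem_univ ζ) w,
        (mem_hat h9 w).subst_left h8.symm⟩
  simp only [↓T_cov, T_and, T_ex, T_all, T_imp, T_mem', T_sm, cls_rep] at H2
  obtain ⟨I, h3, h4⟩ := H2
  exact ⟨I, ctbl_iff_cov.2 h3, h4⟩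

theorem bx_refl (ξ ζ V In Fb : MP_2739cb_lc.Mod (Tri Λ Q)) (a1 : ζ ∈ ξ)
    (a2 : ∀ y, y ∈ ξ → ζ ∉ y) (a3 : SmL Λ.lam ξ V) (h1 : IsTr V) (h2 : ∃ a, a ∈ V) (h3 : Baire V)
    (h4 : RHyp (SmL Λ.lam ζ) V In Fb) : False := by
  obtain ⟨V, rfl⟩ := cls_surj V
  obtain ⟨In, rfl⟩ := cls_surj In
  obtain ⟨Fb, rfl⟩ := cls_surj Fb
  obtain ⟨ξ, rfl⟩ := cls_surj ξ
  obtain ⟨ζ, rfl⟩ := cls_surj ζ
  have H : T (RO.and (RO.and (RO.mem ζ ξ) (smR Λ.lam ξ V)) (RO.and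
      (RO.all fun y => RO.imp (RO.mem y ξ) (RO.not (RO.mem ζ y))) (RO.and (trR V) (RO.and
      (RO.ex fun a => RO.mem a V) (RO.and (baireR V) (RO.and
      (RO.all fun y => RO.all fun d => RO.all fun S => RO.imp (RO.and (RO.mem y V) (RO.and
        (RO.mem d V) (RO.and (smR Λ.lam ζ S) (RO.and (subR S V) (appR In y d))))) (RO.ex fun w =>
        RO.and (RO.mem w V) (RO.and (subR w d) (RO.all fun v => RO.imp (RO.mem v S)
          (RO.imp (RO.or (appR Fb v y) (incR y v)) (incR w v)))))) (RO.and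
      (RO.all fun d => RO.all fun S => RO.imp (RO.and (RO.mem d V) (RO.and (smR Λ.lam ζ S)
        (subR S V))) (RO.ex fun v => RO.and (RO.mem v V) (RO.and (subR v d)
          (RO.all fun y => RO.imp (RO.mem y S) (appR Fb v y))))) (RO.and
      (RO.all fun v => RO.all fun y => RO.imp (RO.and (RO.mem v V) (RO.and (RO.mem y V)
        (appR In y v))) (RO.not (RO.or (appR Fb v y) (incR y v)))) (RO.and
      (RO.all fun y => RO.imp (RO.mem y V) (appR In y y))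
      (RO.all fun D => RO.imp (RO.and (subR D V) (RO.and
        (RO.all fun d => RO.imp (RO.mem d D) (RO.ex fun y => RO.and (RO.mem y V) (RO.and
          (appR In y d) (RO.all fun e => RO.imp (RO.and (RO.mem e V) (appR In y e))
            (RO.mem e D)))))
        (RO.all fun d => RO.imp (RO.mem d D) (RO.ex fun v => RO.and (RO.mem v V) (RO.and
          (subR v d) (RO.not (RO.mem v D))))))) (meagerR D))))))))))) := by
    have : MP_2739cb_lc.Ext fun y => appR In y y := ⟨fun _ _ _ e h => app_eq' h e e⟩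
    simp only [↓T_tr, ↓T_baire, ↓T_meager, ↓T_sub, T_and, T_ex, T_all, T_imp, T_or, T_not, T_mem',
      T_app', T_sm, cls_rep, and_imp]
    exact ⟨⟨a1, a3⟩, a2, h1, h2, h3, h4.h1, h4.h2, h4.h3, h4.h4, h4.h6⟩
  obtain ⟨p, ⟨l1, l2⟩, l3⟩ := H.nonempty
  obtain ⟨p1, l4, ξ0, e1, l5⟩ := l2 p le_rfl
  obtain ⟨p2, l6, ζ0, l7, e2⟩ := mem_nw ((FMem.mono l1 l4).subst_right e1) p1 le_rfl
  obtain ⟨p0, l8, ι, l9, C, l10⟩ := l5 p2 l6
  obtain ⟨k0, k1, k2, k3, k4, k5, k6, k7, k9⟩ := RO.mono l3 (l8.trans (l6.trans l4))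
  have e3 := e2.mono l8
  obtain ⟨_, B, h⟩ := exists_sp k2 l10
  have hι : #ι ≤ 2 ^ Λ.lam ζ0 := by
    have w1 : ℵ₀ ≤ 2 ^ Λ.lam ζ0 := (Λ.reg ζ0).1.trans (cantor _).le
    obtain ⟨F, f1, f2⟩ := Λ.split ⟨ζ0, l7⟩ l9
    rw [← mk_univ, ← iUnion_eq_univ_iff.2 f2]
    refine Order.lt_succ_iff.1 ((card_iUnion_lt_iff_forall_of_isRegular (isRegular_succ w1)
      (Order.lt_succ_iff.2 ((le_aleph0_iff_set_countable.2 (countable_Iio ξ0)).trans w1))).2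
      fun η => Order.lt_succ_iff.2 ((f1 η).trans (power_le_power_left two_ne_zero
        (Λ.mono (not_lt.1 fun h5 => ?_)))))
    exact k0 _ p0 le_rfl ((nw_mem_nw η.2 p0).subst_right (FEq.mono e1 (l8.trans l6)).symm) p0 le_rfl
      ((nw_mem_nw h5 p0).subst_left e3.symm)
  refine refl1 ζ0 hι (Le := LeB B) (In := fun y d => appR In (B y) (B d))
    (Fb := fun v y => appR Fb (B v) (B y)) (p0 := p0) ⟨fun a => sub_rfl _ _, LeB.tr, h.tree k1,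
      fun y d S hS p hp h5 => ?_, fun d S hS p hp => ?_, fun v y r hr h5 h6 => k6 _ _ r hr
        ⟨(h.mem v).mono hr, (h.mem y).mono hr, h5⟩ r le_rfl (h6.elim RO.or_inl RO.or_inr),
      fun y => k7 _ p0 le_rfl (h.mem y), h.baire k3⟩ fun A p hp h5 => ?_
  · obtain ⟨q, h6, w, h7, h8, h9⟩ := k4 _ _ _ p hp ⟨(h.mem y).mono hp, (h.mem d).mono hp,
      smR_intro (e3.mono hp) (small_hat hS p), RO.mono (h.hat S) hp, h5⟩ p le_rfl
    obtain ⟨r, h10, j, h11⟩ := h.sp w q (h6.trans hp) h7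
    exact ⟨r, h10.trans h6, j, sub_eq (RO.mono h8 h10) h11 (FEq.refl _ _), fun v hv t ht h12 =>
      Ext.subst (fun w => incR w (B v)) (h11.mono ht) (h9 _ t (ht.trans h10) (mem_hat hv t) t le_rfl
        (h12.elim RO.or_inl RO.or_inr))⟩
  · obtain ⟨q, h6, w, h7, h8, h9⟩ := k5 _ _ p hp ⟨(h.mem d).mono hp,
      smR_intro (e3.mono hp) (small_hat hS p), RO.mono (h.hat S) hp⟩ p le_rfl
    obtain ⟨r, h10, j, h11⟩ := h.sp w q (h6.trans hp) h7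
    exact ⟨r, h10.trans h6, j, sub_eq (RO.mono h8 h10) h11 (FEq.refl _ _), fun y hy =>
      app_eq' (h9 _ r h10 (mem_hat hy r)) h11 (FEq.refl _ _)⟩
  · let Φ := fun z => RO.ex fun y => (A y).and (appR In (B y) z)
    have e1 : ∀ z r, FMem z (sepNm Φ V) r ↔ FMem z V r ∧ (Φ z).s r := fmem_sepNm Φ V
    have e2 : (subR (sepNm Φ V) V).s p := fun z r _ hz => ((e1 z r).1 hz).1
    refine h.mea hp e2 (fun i r hr => (e1 _ r).trans (and_iff_right ((h.mem i).mono (hr.trans hp))))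
      (k9 _ p hp ⟨e2, fun d r hr hd t ht => ?_, fun d r hr hd t ht => ?_⟩)
    · obtain ⟨w, h6, y, h7, h8⟩ := ((e1 d r).1 hd).2 t ht
      exact ⟨w, h6, B y, (h.mem y).mono (h6.trans (ht.trans (hr.trans hp))), h8,
        fun e v hv h9 => (e1 e v).2 ⟨h9.1, RO.ex_intro y ⟨RO.mono h7 hv, h9.2⟩⟩⟩
    · obtain ⟨h6, h7⟩ := (e1 d t).1 (FMem.mono hd ht)
      obtain ⟨w, h8, i, h9⟩ := h.sp d t (ht.trans (hr.trans hp)) h6
      obtain ⟨w1, h10, v, h11, h12⟩ := h5 i w (h8.trans (ht.trans hr))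
        (Ext.subst Φ h9 (RO.mono h7 h8))
      exact ⟨w1, h10.trans h8, B v, (h.mem v).mono (h10.trans (h8.trans (ht.trans (hr.trans hp)))),
        sub_eq h11 (FEq.refl _ _) (h9.mono h10).symm,
        fun w2 h13 h14 => h12 w2 h13 ((e1 _ w2).1 h14).2⟩

theorem bx : Bx (SmL Λ.lam : MP_2739cb_lc.Mod (Tri Λ Q) → _ → Prop) := by
  refine ⟨fun V => ?_, fun ξ z hξ hz => ?_, fun ξ hξ => ?_, bx_un, bx_kill, bx_dec, bx_refl⟩
  · have : MP_2739cb_lc.Ext fun w : Nm (Tri Λ Q) => RO.ex fun x => RO.ex fun z =>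
        RO.and (pairR w x z) (smR Λ.lam x z) := ⟨fun a b p e h q hq => by
      obtain ⟨r, h1, x, h2⟩ := h q hq
      refine ⟨r, h1, x, fun t ht => ?_⟩
      obtain ⟨w, h3, z, h4, h5⟩ := h2 t ht
      exact ⟨w, h3, z, Ext.subst (fun w => pairR w x z)
        (e.mono (h3.trans (ht.trans (h1.trans hq)))) h4, h5⟩⟩
    obtain ⟨S, hS⟩ := M_sep (fun w => RO.ex fun x => RO.ex fun z =>
      RO.and (pairR w x z) (smR Λ.lam x z)) (prd (om1 _) (pw V))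
    refine ⟨S, fun ξ z => (hS _).trans ?_⟩
    simp only [T_ex, T_and, T_pair, T_sm, cls_rep]
    constructor
    · rintro ⟨h1, x, y, h2, h3⟩
      obtain ⟨rfl, rfl⟩ := op_inj.1 (isPair_iff.1 h2)
      exact ⟨(op_mem_prd.1 h1).1, mem_pw.1 (op_mem_prd.1 h1).2, h3⟩
    · rintro ⟨h1, h2, h3⟩
      exact ⟨op_mem_prd.2 ⟨h1, mem_pw.2 h2⟩, ξ, z, isPair_iff.2 rfl, h3⟩
  · obtain ⟨s, hs⟩ := cov_seq (rep z)
    refine T.mono₂ ((T_mem' (rep ξ) om1N).2 (by rw [cls_rep]; exact hξ))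
      ((T_cov _).2 (by rw [cls_rep]; exact ctbl_iff_cov.1 hz)) fun p h1 hp => RO.reg fun q hq => ?_
    obtain ⟨r, h2, a, h3⟩ := mem_om1N h1 q hq
    refine ⟨r, h2, smR_intro h3 (small_intro (ι := ULift.{u} ℕ) (mk_le_aleph0.trans_lt (Λ.w Q a))
      (fun n => s n.down) fun y t ht hy => ?_)⟩
    obtain ⟨w, h4, n, h5⟩ := hs p hp y t (ht.trans (h2.trans hq)) hy
    exact ⟨w, h4, ⟨n⟩, h5⟩
  · obtain ⟨ξ, rfl⟩ := cls_surj ξ
    refine (T_sm _ ξ om1N).1 (((T_mem' ξ om1N).2 hξ).mono fun p h1 => RO.reg fun q hq => ?_)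
    obtain ⟨r, h2, a, h3⟩ := mem_om1N h1 q hq
    exact ⟨r, h2, smR_intro h3 (small_intro (by simpa using hF.out.unc.trans_le (Λ.kle a)) nw
      fun z t _ hz => mem_om1N hz t le_rfl)⟩

end Pool.Agent.Lib.MP_0fa4a2_gt.BB
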