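import Pool.Agent.Lib.MP_0fa4a2_gt.BB.Ax

/-! The supremum of the levels is a strong limit cardinal of uncountable cofinality in the final
model. -/

namespace Pool.Agent.Lib.MP_0fa4a2_gt.BB

open Pool.Agent.Lib.MP_2739cb_lc Pool.Agent.Lib.MP_783f50_lc Pool.Agent.Lib.MP_0fa4a2_gt
  Nm Cardinal Set

set_option synthInstance.maxSize 100000

universe u v

theorem exists_gt1 (a : W1.{u}) : ∃ b, a < b :=
  let ⟨b, hb⟩ := exists_gt_W1 (countable_singleton a); ⟨b, hb a rfl⟩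

theorem exists_lv {k : Cardinal.{u}} (hk : k.IsRegular) : ∃ K : Type u, Nonempty (Lv k K) := by
  classical
  let lam : W1.{u} → Cardinal.{u} := WellFoundedLT.fix fun ξ rec =>
    if ∃ ζ, ζ < ξ then Order.succ (sum fun ζ : Iio ξ => 2 ^ rec ζ.1 ζ.2) else k
  have hl : ∀ ξ, lam ξ = if ∃ ζ, ζ < ξ then Order.succ (sum fun ζ : Iio ξ => 2 ^ lam ζ.1)
      else k := fun ξ => by
    simp only [lam]
    rw [WellFoundedLT.fix_eq]
  have pw : ∀ ζ ξ, ζ < ξ → 2 ^ lam ζ < lam ξ := fun ζ ξ h => by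
    rw [hl ξ, if_pos ⟨ζ, h⟩]
    exact Order.lt_succ_iff.2 (le_sum (fun ζ : Iio ξ => 2 ^ lam ζ.1) ⟨ζ, h⟩)
  have kle : ∀ ξ, k ≤ lam ξ := fun ξ => by
    induction ξ using WellFoundedLT.induction with
    | ind ξ ih =>
      by_cases h : ∃ ζ, ζ < ξ
      · obtain ⟨ζ, h⟩ := h
        exact (ih ζ h).trans ((cantor _).trans (pw ζ ξ h)).le
      · rw [hl ξ, if_neg h]
  let K := Σ ζ : W1.{u}, (Order.succ (2 ^ lam ζ) : Cardinal.{u}).out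
  have hK : ∀ ζ, #{a : K | a.1 = ζ} = Order.succ (2 ^ lam ζ) := fun ζ => by
    have : {a : K | a.1 = ζ} = range (Sigma.mk ζ) := Set.ext fun a =>
      ⟨fun h => by obtain ⟨b, c⟩ := a; obtain rfl : b = ζ := h; exact ⟨c, rfl⟩,
        fun ⟨c, h⟩ => h ▸ rfl⟩
    rw [this, mk_range_eq _ sigma_mk_injective, mk_out]
  choose val hval using fun ζ => le_mk_iff_exists_set.1
    (((Order.le_succ (2 ^ lam ζ)).trans_eq (hK ζ).symm).trans (mk_subtype_le _))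
  refine ⟨K, ⟨⟨lam, Sigma.fst, val, fun ξ => ?_, kle, fun ξ h => ?_, pw, fun ξ h c hc => ?_, hval,
    fun ζ => hK ζ ▸ Order.lt_succ _, fun ζ ξ h => hK ζ ▸ Order.succ_le_of_lt (pw ζ ξ h)⟩⟩⟩
  · by_cases h : ∃ ζ, ζ < ξ
    · rw [hl ξ, if_pos h]
      obtain ⟨ζ, h⟩ := h
      exact isRegular_succ (((hk.1.trans (kle ζ)).trans (cantor _).le).trans
        (le_sum (fun ζ : Iio ξ => 2 ^ lam ζ.1) ⟨ζ, h⟩))
    · rwa [hl ξ, if_neg h]
  · rw [hl ξ, if_neg fun ⟨ζ, h1⟩ => h ζ h1]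
  · rw [hl ξ, if_pos h] at hc
    exact Order.lt_succ_iff.1 hc

variable {k : Cardinal.{u}} {Q K : Type u}

/-- The supremum of the levels. -/
noncomputable def Lv.top (Λ : Lv k K) : Cardinal.{u} := ⨆ ξ, Λ.lam ξ

theorem Lv.lt_top (Λ : Lv k K) (ξ : W1.{u}) : Λ.lam ξ < Λ.top :=
  let ⟨ζ, h⟩ := exists_gt1 ξ
  ((cantor _).trans (Λ.pow _ _ h)).trans_le (le_ciSup bddAbove_of_small ζ)

theorem Lv.of_lt_top (Λ : Lv k K) {o : Ordinal.{u}} (h : o < Λ.top.ord) :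
    ∃ ξ, o.card < Λ.lam ξ := by
  by_contra hc
  push Not at hc
  exact (lt_ord.1 h).not_ge (ciSup_le' hc)

variable [Preorder Q] [OrderTop Q] {Λ : Lv k K} [hF : Fact (First k Q)]

variable (Λ Q) in
/-- The supremum of the levels, in the final model. -/
noncomputable def mu : MP_2739cb_lc.Mod (Tri Λ Q) := cls (on Λ.top.ord)

theorem mu_small {ν : MP_2739cb_lc.Mod (Tri Λ Q)} (h : ν ∈ mu Q Λ) :
    ∃ ξ, ξ ∈ om1 (MP_2739cb_lc.Mod (Tri Λ Q)) ∧ SmL Λ.lam ξ ν := by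
  obtain ⟨ν, rfl⟩ := cls_surj ν
  have H : T (RO.ex fun ξ => RO.and (RO.mem ξ om1N) (smR Λ.lam ξ ν)) := by
    refine ((T_mem' ν (on Λ.top.ord)).2 h).mono fun p h1 q hq => ?_
    obtain ⟨r, h2, o, h3, h4⟩ := mem_on h1 q hq
    obtain ⟨ξ, h5⟩ := Λ.of_lt_top h3
    exact ⟨r, h2, nw ξ, nw_mem ξ r, smR_intro (FEq.refl _ _) (small_intro (ι := o.ToType)
      (by simpa using h5) nm fun z t ht hz => mem_on' (hz.subst_right (h4.mono ht)) t le_rfl)⟩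
  simp only [T_and, T_ex, T_mem', T_sm, cls_rep] at H
  exact H

theorem mu_large (ξ : MP_2739cb_lc.Mod (Tri Λ Q)) : ¬ SmL Λ.lam ξ (mu Q Λ) := fun h => by
  obtain ⟨ξ, rfl⟩ := cls_surj ξ
  obtain ⟨p, h1⟩ := ((T_sm _ ξ (on Λ.top.ord)).2 h).nonempty
  obtain ⟨p1, -, ζ, -, h2⟩ := h1 p le_rfl
  obtain ⟨p2, -, ι, h3, C, h4⟩ := h2 p1 le_rfl
  obtain ⟨a0, -⟩ := exists_out (κ := Λ.top) ∅ (by simpa using (Λ.reg ζ).pos.trans (Λ.lt_top ζ))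
  obtain ⟨q, h5, ι', h6, F, h7⟩ := small_cover ζ h3 (fun j (a : Λ.top.ord.ToType) c =>
      (RO.imp (RO.mem (C j) (on Λ.top.ord)) (RO.eq (C j) (nm a))).s c)
    (fun _ _ _ _ h h' => RO.mono h' h) p2 fun j r _ => by
      obtain ⟨t, h5, h6 | h6⟩ := RO.decide (RO.mem (C j) (on Λ.top.ord)) r
      · obtain ⟨w, h7, a, h8⟩ := mem_on' h6 t le_rfl
        exact ⟨w, h7.trans h5, a, fun w1 h9 _ => h8.mono h9⟩
      · exact ⟨t, h5, a0, fun w hw h7 => absurd h7 (h6 w hw)⟩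
  obtain ⟨a, ha⟩ := exists_out (range F) (mk_range_le.trans_lt (h6.trans (Λ.lt_top ζ)))
  obtain ⟨t, h8, j, h9⟩ := h4 _ q h5 (nm_mem a q)
  obtain ⟨w, h10, i, h11⟩ := h7 j t h8
  exact ha ⟨i, (nm_inj ((h9.mono h10).trans
    (h11 w le_rfl ((nm_mem a w).subst_left (h9.mono h10))))).symm⟩

theorem mu_pow {ν W : MP_2739cb_lc.Mod (Tri Λ Q)} (h : ν ∈ mu Q Λ) (hW : ∀ z, z ∈ W → z ⊆ ν) :
    ∃ ξ, ξ ∈ om1 (MP_2739cb_lc.Mod (Tri Λ Q)) ∧ SmL Λ.lam ξ W := by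
  obtain ⟨ν, rfl⟩ := cls_surj ν
  obtain ⟨W, rfl⟩ := cls_surj W
  have H0 : T (RO.all fun z => RO.imp (RO.mem z W) (subR z ν)) := by
    simpa only [↓T_sub, T_all, T_imp, T_mem', cls_rep] using hW
  have H : T (RO.ex fun ξ => RO.and (RO.mem ξ om1N) (smR Λ.lam ξ W)) := by
    refine ((T_mem' ν (on Λ.top.ord)).2 h).mono₂ H0 fun p h1 h0 q hq => ?_
    obtain ⟨r, h2, o, h3, h4⟩ := mem_on h1 q hq
    obtain ⟨ζ, h5⟩ := Λ.of_lt_top h3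
    obtain ⟨ξ1, l1⟩ := exists_gt1 ζ
    obtain ⟨ξ2, l2⟩ := exists_gt1 ξ1
    obtain ⟨ξ3, l3⟩ := exists_gt1 ξ2
    have w1 : ℵ₀ ≤ 2 ^ Λ.lam ξ1 := (Λ.reg ξ1).1.trans (cantor _).le
    have c1 : #(Low Λ ζ) ≤ 2 ^ Λ.lam ξ1 := (mk_le_mk_of_subset
      (t := ⋃ η ∈ Iic ζ, {a | Λ.lev a = η}) fun a ha => mem_iUnion₂.2 ⟨_, ha, rfl⟩).trans
      (Order.lt_succ_iff.1 ((card_biUnion_lt_iff_forall_of_isRegular (isRegular_succ w1)
        (Order.lt_succ_iff.2 ((le_aleph0_iff_set_countable.2 (countable_Iic ζ)).trans w1))).2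
        fun η hη => Order.lt_succ_iff.2 ((Λ.cl _ _ (lt_of_le_of_lt hη l1)).trans (cantor _).le)))
    let J := o.ToType × {c : Tri Λ Q // Supp (Low Λ ζ) c}
    have c2 : #(Set J) < Λ.lam ξ3 := by
      rw [mk_set, mk_prod, lift_id, lift_id]
      refine (power_le_power_left two_ne_zero ?_).trans_lt (Λ.pow _ _ l3)
      refine (mul_lt_of_lt (Λ.reg ξ2).1 ?_ ((card_supp Subset.rfl (Λ.mono l1.le) c1).trans_lt
        (Λ.pow _ _ l2))).le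
      simpa using h5.trans_le (Λ.mono (l1.trans l2).le)
    refine ⟨r, h2, nw ξ3, nw_mem ξ3 r, smR_intro (FEq.refl _ _) (small_intro c2
      (fun A => Nm.mk A (fun x => nm x.1.1) fun x => x.1.2.1) fun z t ht hz => ?_)⟩
    have h6 := h0 z t (ht.trans (h2.trans hq)) hz
    obtain ⟨g, g1, X, g2, -, g3⟩ := starS ζ (ι := o.ToType)
      (by simpa using h5.le.trans (cantor _).le)
      (fun a c => (RO.mem (nm a) z).s c ∨ (RO.mem (nm a) z).not.s c)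
      (fun _ _ _ h h' => h'.imp (fun h' => RO.mono h' h) fun h' => RO.mono h' h) t
      fun a q _ => RO.decide _ q
    have g4 : (⟨t.q, g⟩ : Tri Λ Q) ≤ t := Tri.mk_le le_rfl g1
    refine ⟨_, g4, {x | FMem (nm x.1) z (mix (Low Λ ζ) x.2.1 g)}, FEq.ext fun y c hc =>
      ⟨fun h7 => FMem.reg fun w hw => ?_, fun h7 => FMem.reg fun w hw => ?_⟩⟩
    · have h8 := hw.trans hc
      obtain ⟨w1, h9, a, h10⟩ := mem_on' (FMem.subst_right (h6 y w (h8.trans g4) (h7.mono hw))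
        (h4.mono (h8.trans (g4.trans ht)))) w le_rfl
      obtain ⟨c', h11, h12⟩ := g3 a w1 (h9.trans h8)
      have h13 := h11.trans (h9.trans h8)
      have h14 := h12.resolve_right fun h14 => h14 c'
        (le_mix.2 ⟨leX_of_le le_rfl, fun τ r _ => h13.2 τ r⟩)
        ((h7.mono (h11.trans (h9.trans hw))).subst_left (h10.mono h11))
      have h15 : mix (Low Λ ζ) (c'.res (Low Λ ζ)) g ≤ mix X c' g :=
        le_mix.2 ⟨⟨le_rfl, fun τ r h15 _ h16 => by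
          rw [mix_in (g2 h15)]; exact ⟨g2 h15, h16⟩⟩, fun τ r _ h16 h17 => by
          by_cases h18 : τ.1 ∈ Low Λ ζ
          · rw [mix_in h18]; exact ⟨h18, h13.2 τ r h16 h17⟩
          · rwa [mix_out h18]⟩
      exact ⟨c', h11.trans h9, (FMem.of_le (y := Nm.mk
        {x : J | FMem (nm x.1) z (mix (Low Λ ζ) x.2.1 g)} (fun x => nm x.1.1) fun x => x.1.2.1)
        ⟨(a, ⟨c'.res _, c'.supp_res⟩), FMem.mono h14 h15⟩ c'.le_res).subst_left (h10.mono h11).symm⟩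
    · obtain ⟨w1, h8, x, h9, h10⟩ := h7 w hw
      exact ⟨w1, h8, (FMem.mono x.2 (le_mix.2 ⟨leX_of_le h9, fun τ r _ =>
        (h8.trans (hw.trans hc)).2 τ r⟩)).subst_left h10.symm⟩
  simp only [T_and, T_ex, T_mem', T_sm, cls_rep] at H
  exact H

theorem mu_cof {Z : MP_2739cb_lc.Mod (Tri Λ Q)} (h1 : Z ⊆ mu Q Λ) (h2 : Ctbl Z) :
    ∃ β, β ∈ mu Q Λ ∧ Z ⊆ β := by
  obtain ⟨Z, rfl⟩ := cls_surj Z
  have H : T (RO.ex fun β => RO.and (RO.mem β (on Λ.top.ord)) (subR Z β)) := by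
    obtain ⟨s, hs⟩ := cov_seq Z
    refine ((T_sub Z (on Λ.top.ord)).2 h1).mono₂ ((T_cov Z).2 (ctbl_iff_cov.1 h2))
      fun p k1 k2 p1 hp => ?_
    obtain ⟨q, hq, S, h3, h4⟩ := covU (fun n (a : Λ.top.ord.ToType) t => FEq (s n) (nm a) t)
      (fun _ _ _ _ h h1 => h1.mono h) p1 fun n r _ => by
        by_cases hc : ∃ a : Λ.top.ord.ToType, ∃ t, t ≤ r ∧ FEq (s n) (nm a) t
        · obtain ⟨a, t, ht, h2⟩ := hc
          exact ⟨t, ht, {a}, countable_singleton a, fun b w hw h3 =>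
            nm_inj (h3.symm.trans (h2.mono hw))⟩
        · exact ⟨r, le_rfl, ∅, countable_empty, fun a t ht h2 => hc ⟨a, t, ht, h2⟩⟩
    choose l hl using fun a : Λ.top.ord.ToType => Λ.of_lt_top (Ordinal.typein_lt_self a)
    obtain ⟨ξ, hξ⟩ := exists_gt_W1 (h3.image l)
    refine ⟨q, hq, on (Λ.lam ξ).ord, on_mem (ord_lt_ord.2 (Λ.lt_top ξ)) q,
      fun y t ht hy => FMem.reg fun w hw => ?_⟩
    have h5 := hw.trans (ht.trans (hq.trans hp))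
    obtain ⟨w1, h6, n, h7⟩ := hs p k2 y w h5 (FMem.mono hy hw)
    obtain ⟨w2, h8, a, h9⟩ := mem_on' (k1 y w h5 (FMem.mono hy hw)) w1 h6
    have h10 := h4 n a w2 (h8.trans (h6.trans (hw.trans ht))) ((h7.mono h8).symm.trans h9)
    exact ⟨w2, h8.trans h6, (on_mem (lt_ord.2 ((hl a).trans_le (Λ.mono (hξ _ ⟨a, h10, rfl⟩).le)))
      w2).subst_left h9.symm⟩
  simp only [↓T_sub, T_and, T_ex, T_mem', cls_rep] at H
  exact H

theorem final : IsCard (EE _) (mu Q Λ) ∧ IsStrongLimit (EE _) (mu Q Λ) ∧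
    (∀ Z, Sub (EE _) Z (mu Q Λ) → CardLe (EE _) Z (om _) →
      ∃ β, β ∈ mu Q Λ ∧ Sub (EE _) Z β) ∧
    ∀ X τ : MP_2739cb_lc.Mod (Tri Λ Q), IsTop (EE _) X τ →
      (∀ U, U ∈ τ → (∃ x, x ∈ U) → ∃ V, V ∈ τ ∧ (∃ x, x ∈ V) ∧ Sub (EE _) V U ∧
        ∃ ν, ν ∈ mu Q Λ ∧ CardLe (EE _) V ν) →
      IsPerfectlyNormal (EE _) (om _) X τ →
      (∃ B, IsTopBase (EE _) τ B ∧ IsRankOne (EE _) X B) →
      (∃ B, IsTopBase (EE _) τ B ∧ IsPointCountable (EE _) (om _) X B) →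
      ∃ ρ, IsUltrametricFor (EE _) (om _) X τ ρ := by
  refine ⟨⟨isOrd_on _, fun α h1 h2 => ?_⟩, fun ν W h1 h2 h3 => ?_,
    fun Z h1 h2 => mu_cof h1 (ctbl_of_cardLe h2), fun X τ h1 h2 => ?_⟩
  · obtain ⟨ξ, h3, h4⟩ := mu_small h1
    exact mu_large ξ ((bx.ax0 h3).of_cardEq h4 h2)
  · obtain ⟨ξ, h4, h5⟩ := mu_pow (W := W) h1 fun z hz => (h2 z).1 hz
    exact mu_large ξ ((bx.ax0 h4).of_cardLe h5 h3)
  · refine main_internal' (nb_of bx fun U h3 h4 => ?_) h1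
    obtain ⟨V, h5, h6, h7, ν, h8, h9⟩ := h2 U h3 h4
    obtain ⟨ξ, h10, h11⟩ := mu_small h8
    exact ⟨V, h5, h6, h7, ξ, h10, (bx.ax0 h10).of_cardLe h11 h9⟩

end Pool.Agent.Lib.MP_0fa4a2_gt.BB
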