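import Pool.Agent.Lib.MP_0fa4a2_gt.BB.Pre

/-! Canonical plays through a tree with the Baire property. -/

namespace Pool.Agent.Lib.MP_0fa4a2_gt.BB

open Pool.Agent.Lib.MP_2739cb_lc Pool.Agent.Lib.MP_783f50_lc Pool.Agent.Lib.MP_0fa4a2_gt
  Cardinal Set

universe u v

variable {P I : Type u} [Preorder P]

structure RG (k : Cardinal.{u}) (Le In Fb : I → I → RO P) (p0 : P) : Prop where
  rf : ∀ a, (Le a a).s p0
  tr : ∀ a b c r, (Le a b).s r → (Le b c).s r → (Le a c).s r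
  tree : ∀ a b c r, r ≤ p0 → (Le a c).s r → (Le b c).s r →
    ∃ t, t ≤ r ∧ ((Le a b).s t ∨ (Le b a).s t)
  h1 : ∀ y d (M : Set I), #M < k → ∀ p, p ≤ p0 → (In y d).s p → ∃ q, q ≤ p ∧ ∃ w, (Le d w).s q ∧
    ∀ v ∈ M, ∀ r, r ≤ q → ((Fb v y).s r ∨ (inc Le y v).s r) → (inc Le w v).s r
  h2 : ∀ d (M : Set I), #M < k → ∀ p, p ≤ p0 → ∃ q, q ≤ p ∧ ∃ v, (Le d v).s q ∧
    ∀ y ∈ M, (Fb v y).s q
  h3 : ∀ v y r, r ≤ p0 → (In y v).s r → ¬ ((Fb v y).s r ∨ (inc Le y v).s r)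
  h4 : ∀ y, (In y y).s p0
  baire : BaireN Le p0

variable {k : Cardinal.{u}} {Le In Fb : I → I → RO P} {p0 : P} {w0 : I}

theorem RG.mono (h : RG k Le In Fb p0) {p : P} (hp : p ≤ p0) : RG k Le In Fb p :=
  ⟨fun a => RO.mono (h.rf a) hp, h.tr, fun a b c r hr => h.tree a b c r (hr.trans hp),
    fun y d M hM q hq => h.h1 y d M hM q (hq.trans hp),
    fun d M hM q hq => h.h2 d M hM q (hq.trans hp), fun v y r hr => h.h3 v y r (hr.trans hp),
    fun y => RO.mono (h.h4 y) hp, fun O r hr => h.baire O r (hr.trans hp)⟩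

theorem RG.inc_up (h : RG k Le In Fb p0)
    {a b v : I} {r : P} (hr : r ≤ p0) (h1 : (inc Le a v).s r) (h2 : (Le a b).s r) :
    (inc Le b v).s r :=
  ⟨fun t ht h3 => h1.1 t ht (h.tr _ _ _ _ (RO.mono h2 ht) h3), fun t ht h3 => by
    obtain ⟨w, hw, h4⟩ := h.tree _ _ _ t (ht.trans hr) (RO.mono h2 ht) h3
    exact h4.elim (h1.1 w (hw.trans ht)) (h1.2 w (hw.trans ht))⟩

variable (Le w0) in
def Pl [LinearOrder I] (Val : List (I × I) → P → Prop) :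
    List (I × I) → I → P → Prop
  | [], z, r => (Le w0 z).s r
  | a :: s, z, r => Pl Val s z r ∧ (Le (lastw w0 s) a.1).s r ∧ Val (a :: s) r ∧ (Le a.2 z).s r ∧
      ∀ u, u < a.1 → ∀ w r', r' ≤ r → (Le (lastw w0 s) u).s r' → Val ((u, w) :: s) r' →
        (inc Le w z).s r'

variable [LinearOrder I] {Val : List (I × I) → P → Prop}

theorem Pl.mono (vm : ∀ s p q, q ≤ p → Val s p → Val s q) {s : List (I × I)} {z : I}
    {r r' : P} (h : Pl Le w0 Val s z r) (hr : r' ≤ r) : Pl Le w0 Val s z r' := by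
  induction s with
  | nil => exact RO.mono h hr
  | cons a s ih => exact ⟨ih h.1, RO.mono h.2.1 hr, vm _ _ _ hr h.2.2.1, RO.mono h.2.2.2.1 hr,
      fun u hu w t ht => h.2.2.2.2 u hu w t (ht.trans hr)⟩

theorem Pl.last {s : List (I × I)} {z : I} {r : P} (h : Pl Le w0 Val s z r) :
    (Le (lastw w0 s) z).s r := by
  cases s
  · exact h
  · exact h.2.2.2.1

omit [LinearOrder I] in
theorem inc_symm {a b : I} {r : P} (h : (inc Le a b).s r) : (inc Le b a).s r :=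
  ⟨h.2, h.1⟩

theorem Pl.up (hR : RG k Le In Fb p0) {s : List (I × I)} {z z' : I} {r : P} (hr : r ≤ p0)
    (h : Pl Le w0 Val s z r) (hz : (Le z z').s r) : Pl Le w0 Val s z' r := by
  induction s with
  | nil => exact hR.tr _ _ _ _ h hz
  | cons a s ih => exact ⟨ih h.1, h.2.1, h.2.2.1, hR.tr _ _ _ _ h.2.2.2.1 hz,
      fun u hu w t ht h1 h2 => inc_symm (hR.inc_up (ht.trans hr)
        (inc_symm (h.2.2.2.2 u hu w t ht h1 h2)) (RO.mono hz ht))⟩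

theorem Pl.uniq (vf : ∀ u w w' s p, Val ((u, w) :: s) p → Val ((u, w') :: s) p → w = w')
    {z : I} {r : P} : ∀ s s' : List (I × I), s.length = s'.length →
    Pl Le w0 Val s z r → Pl Le w0 Val s' z r → s = s'
  | [], [], _, _, _ => rfl
  | (u, w) :: s, (u', w') :: s', h, h1, h2 => by
    obtain rfl := Pl.uniq vf s s' (by simpa using h) h1.1 h2.1
    obtain rfl : u = u' := by
      rcases lt_trichotomy u u' with h3 | h3 | h3
      · exact absurd h1.2.2.2.1 ((h2.2.2.2.2 u h3 w r le_rfl h1.2.1 h1.2.2.1).1 r le_rfl)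
      · exact h3
      · exact absurd h2.2.2.2.1 ((h1.2.2.2.2 u' h3 w' r le_rfl h2.2.1 h2.2.2.1).1 r le_rfl)
    rw [vf _ _ _ _ _ h1.2.2.1 h2.2.2.1]

theorem exists_play [WellFoundedLT I] (hR : RG k Le In Fb p0) {p1 : P} (hp : p1 ≤ p0)
    (vm : ∀ s p q, q ≤ p → Val s p → Val s q) (v0 : ∀ p, Val [] p)
    (ve : ∀ s p, p ≤ p1 → Val s p → ∀ u, ∃ q, q ≤ p ∧ ∃ w, Val ((u, w) :: s) q ∧ (Le u w).s q) :
    ∃ p2, p2 ≤ p1 ∧ ∃ z, ∀ (n : ULift.{u} ℕ) r, r ≤ p2 → ∃ t, t ≤ r ∧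
      ∃ s, s.length = n.down ∧ Pl Le w0 Val s z t := by
  obtain ⟨p2, h1, z, h2, h3⟩ := hR.baire (fun n z => RO.dense fun r => (inc Le w0 z).s r ∨
      ∃ s, s.length = n ∧ Pl Le w0 Val s z r) p1 hp
    (fun n a b t ht h1 h2 r hr => by
      obtain ⟨w, h3, h4⟩ := h1 r hr
      have h5 := h3.trans (hr.trans (ht.trans hp))
      have h6 := RO.mono h2 (h3.trans hr)
      exact ⟨w, h3, h4.imp (fun h => inc_symm (hR.inc_up h5 (inc_symm h) h6))
        fun ⟨s, h7, h8⟩ => ⟨s, h7, h8.up hR h5 h6⟩⟩)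
    (fun n z r hr => by
      suffices ∃ w, w ≤ r ∧ ∃ b, (Le z b).s w ∧ ((inc Le w0 b).s w ∨
          ∃ s, s.length = n ∧ Pl Le w0 Val s b w) by
        obtain ⟨w, h1, b, h2, h3⟩ := this
        exact ⟨w, h1, b, h2, fun t ht => ⟨t, le_rfl, h3.imp (fun h => RO.mono h ht)
          fun ⟨s, h4, h5⟩ => ⟨s, h4, h5.mono vm ht⟩⟩⟩
      induction n with
      | zero =>
        by_cases h1 : ∃ w, w ≤ r ∧ (Le w0 z).s w
        · obtain ⟨w, h1, h2⟩ := h1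
          exact ⟨w, h1, z, RO.mono (hR.rf z) (h1.trans (hr.trans hp)), Or.inr ⟨[], rfl, h2⟩⟩
        by_cases h2 : ∃ w, w ≤ r ∧ (Le z w0).s w
        · obtain ⟨w, h2, h3⟩ := h2
          exact ⟨w, h2, w0, h3, Or.inr ⟨[], rfl, RO.mono (hR.rf w0) (h2.trans (hr.trans hp))⟩⟩
        · exact ⟨r, le_rfl, z, RO.mono (hR.rf z) (hr.trans hp), Or.inl ⟨fun w h h' => h1 ⟨w, h, h'⟩,
            fun w h h' => h2 ⟨w, h, h'⟩⟩⟩
      | succ n ih =>
        obtain ⟨r1, h1, z1, h2, h3 | ⟨s, h3, h4⟩⟩ := ih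
        · exact ⟨r1, h1, z1, h2, Or.inl h3⟩
        obtain ⟨u, ⟨r2, h5, w, h6, h7, h8⟩, h9⟩ := WellFounded.has_min wellFounded_lt
          {u | ∃ r', r' ≤ r1 ∧ ∃ w, (Le (lastw w0 s) u).s r' ∧ Val ((u, w) :: s) r' ∧
            ((Le w z1).s r' ∨ (Le z1 w).s r')} (by
            obtain ⟨q, h5, w, h6, h7⟩ := ve s r1 (h1.trans hr) (by
              cases s
              · exact v0 _
              · exact h4.2.2.1) z1
            exact ⟨z1, q, h5, w, RO.mono h4.last h5, h6, Or.inr h7⟩)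
        have h10 := h5.trans (h1.trans (hr.trans hp))
        obtain ⟨b, h11, h12⟩ : ∃ b, (Le z1 b).s r2 ∧ (Le w b).s r2 :=
          h8.elim (fun h => ⟨z1, RO.mono (hR.rf _) h10, h⟩) fun h => ⟨w, h, RO.mono (hR.rf _) h10⟩
        refine ⟨r2, h5.trans h1, b, hR.tr _ _ _ _ (RO.mono h2 h5) h11, Or.inr ⟨(u, w) :: s,
          by simp [h3], (h4.mono vm h5).up hR h10 h11, h6, h7, h12, fun u' hu w' t ht h13 h14 =>
          inc_symm (hR.inc_up (ht.trans h10) (inc_symm ⟨fun t' h15 h16 => ?_,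
            fun t' h15 h16 => ?_⟩) (RO.mono h11 ht))⟩⟩
        · exact h9 u' ⟨t', h15.trans (ht.trans h5), w', RO.mono h13 h15, vm _ _ _ h15 h14,
            Or.inl h16⟩ hu
        · exact h9 u' ⟨t', h15.trans (ht.trans h5), w', RO.mono h13 h15, vm _ _ _ h15 h14,
            Or.inr h16⟩ hu) w0
  refine ⟨p2, h1, z, fun n r hr => ?_⟩
  obtain ⟨t, h4, h5⟩ := h3 n.down r hr
  exact ⟨t, h4, h5.resolve_left fun h => h.1 t le_rfl (RO.mono h2 (h4.trans hr))⟩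

end Pool.Agent.Lib.MP_0fa4a2_gt.BB
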