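import Pool.Agent.Lib.MP_0fa4a2_gt.BB.Prod

/-! Small families of dense sets have small predense subsets, at every level. -/

namespace Pool.Agent.Lib.MP_0fa4a2_gt.BB

open Pool.Agent.Lib.MP_2739cb_lc Pool.Agent.Lib.MP_783f50_lc Pool.Agent.Lib.MP_0fa4a2_gt
  Cardinal Set

universe u v

theorem exists_meet' {G : Type v} (le : G → G → Prop) (rf : ∀ a, le a a)
    (tr : ∀ a b c, le a b → le b c → le a c) {ι : Type u}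
    (ub : ∀ (J : Type u) (s : J → G), #J ≤ #ι → (∀ a b, le (s a) (s b) ∨ le (s b) (s a)) →
      ∃ u, ∀ a, le (s a) u)
    (E : ι → G → Prop) (hm : ∀ i u v, le u v → E i u → E i v) (hd : ∀ i u, ∃ v, le u v ∧ E i v)
    (u : G) : ∃ v, le u v ∧ ∀ i, E i v := by
  obtain ⟨v, hv⟩ := exists_meet (G := {v // le u v}) (fun a b => le a.1 b.1) (fun _ => rf _)
    (fun _ _ _ => tr _ _ _) (ι := ι) (fun J s hJ h => by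
      rcases isEmpty_or_nonempty J with h0 | ⟨⟨a⟩⟩
      · exact ⟨⟨u, rf u⟩, fun a => h0.elim a⟩
      obtain ⟨w, hw⟩ := ub J (fun a => (s a).1) hJ h
      exact ⟨⟨w, tr _ _ _ (s a).2 (hw a)⟩, hw⟩) (fun i v => E i v.1) (fun i a b => hm i a.1 b.1)
    fun i a => let ⟨w, h1, h2⟩ := hd i a.1; ⟨⟨w, tr _ _ _ a.2 h1⟩, h1, h2⟩
  exact ⟨v.1, v.2, hv⟩

theorem exists_gt_reg {c : Cardinal.{u}} (h : c.IsRegular) (h0 : ℵ₀ < c) {S : Set c.ord.ToType}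
    (hS : #S < c) : ∃ b, ∀ a ∈ S, a < b := by
  obtain ⟨b, hb⟩ := exists_out (⋃ a ∈ S, Iic a)
    ((card_biUnion_lt_iff_forall_of_isRegular h hS).2 fun a _ => card_Iic h0 a)
  exact ⟨b, fun a ha => not_le.1 fun h1 => hb (mem_biUnion ha h1)⟩

variable {k : Cardinal.{u}} {Q K : Type u} [Preorder Q] {Λ : Lv k K} [hF : Fact (First k Q)]

def Low (Λ : Lv k K) (ζ : W1.{u}) : Set K := {a | Λ.lev a ≤ ζ}

def lsup (ζ : W1.{u}) (f : Fm Λ Q) : Set K := {a | Λ.lev a ≤ ζ ∧ ∃ j r, (f.s (a, j)).s r}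

variable (Q) in
include hF in
theorem Lv.w (Λ : Lv k K) (ζ : W1.{u}) : ℵ₀ < Λ.lam ζ := hF.out.w.trans_le (Λ.kle ζ)

theorem card_low (ζ : W1.{u}) (f : Fm Λ Q) :
    #{τ | Λ.lev τ.1 ≤ ζ ∧ ∃ r, (f.s τ).s r} < Λ.lam ζ := by
  refine lt_of_le_of_lt (mk_le_mk_of_subset (t := ⋃ ξ ∈ Iic ζ,
    {τ | Λ.lev τ.1 = ξ ∧ ∃ r, (f.s τ).s r}) fun τ h => mem_iUnion₂.2 ⟨_, h.1, rfl, h.2⟩) ?_
  exact (card_biUnion_lt_iff_forall_of_isRegular (Λ.reg ζ)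
    ((le_aleph0_iff_set_countable.2 (countable_Iic ζ)).trans_lt (Λ.w Q ζ))).2
    fun ξ hξ => (f.sm ξ).trans_le (Λ.mono hξ)

theorem card_lsup (ζ : W1.{u}) (f : Fm Λ Q) : #(lsup ζ f) < Λ.lam ζ :=
  lt_of_le_of_lt ((mk_le_mk_of_subset (t := Prod.fst '' {τ | Λ.lev τ.1 ≤ ζ ∧ ∃ r, (f.s τ).s r})
    (by rintro a ⟨h1, j, h2⟩; exact ⟨(a, j), ⟨h1, h2⟩, rfl⟩)).trans mk_image_le) (card_low ζ f)

theorem card_supp {ζ : W1.{u}} {X : Set K} (hX : X ⊆ Low Λ ζ) {ν : Cardinal.{u}}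
    (hν : Λ.lam ζ ≤ ν) (h : #X ≤ 2 ^ ν) : #{c : Tri Λ Q // Supp X c} ≤ 2 ^ ν := by
  have w0 : ℵ₀ ≤ ν := (Λ.reg ζ).1.trans hν
  have w1 : ℵ₀ ≤ 2 ^ ν := w0.trans (cantor ν).le
  have hQ : #Q ≤ ν := hF.out.card.trans ((Λ.kle ζ).trans hν)
  have mm : ∀ a b : Cardinal.{u}, a ≤ 2 ^ ν → b ≤ 2 ^ ν → a * b ≤ 2 ^ ν := fun a b h1 h2 =>
    (mul_le_mul' h1 h2).trans (mul_eq_self w1).le
  have hV : #(⋃ ξ ∈ Iic ζ, Λ.val ξ : Set K) ≤ 2 ^ ν := Order.lt_succ_iff.1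
    ((card_biUnion_lt_iff_forall_of_isRegular (isRegular_succ w1) (Order.lt_succ_iff.2
      ((le_aleph0_iff_set_countable.2 (countable_Iic ζ)).trans w1))).2 fun ξ hξ =>
      Order.lt_succ_iff.2 ((Λ.cv ξ).trans_le
        (power_le_power_left two_ne_zero ((Λ.mono hξ).trans hν))))
  let A : Set ((K × K) × Q) := (X ×ˢ ⋃ ξ ∈ Iic ζ, Λ.val ξ) ×ˢ Set.univ
  have hA : #A ≤ 2 ^ ν := by
    simp only [A, mk_setProd, mk_univ]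
    exact mm _ _ (mm _ _ h hV) (hQ.trans (cantor ν).le)
  let F : {c : Tri Λ Q // Supp X c} → Q × {t : Set ((K × K) × Q) // t ⊆ A ∧ #t ≤ ν} := fun c =>
    (c.1.q, ⟨{t | (c.1.f.s t.1).s t.2}, fun t ht => ⟨⟨c.2 _ _ ht,
      mem_biUnion (hX (c.2 _ _ ht)) (c.1.f.le _ _ ht)⟩, trivial⟩, (mk_le_mk_of_subset
        (t := {τ | Λ.lev τ.1 ≤ ζ ∧ ∃ r, (c.1.f.s τ).s r} ×ˢ Set.univ)
        fun t ht => ⟨⟨hX (c.2 _ _ ht), _, ht⟩, trivial⟩).trans (by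
          rw [mk_setProd, mk_univ]
          exact (mul_le_mul' ((card_low ζ c.1.f).le.trans hν) hQ).trans (mul_eq_self w0).le)⟩)
  have hF : Function.Injective F := by
    rintro ⟨⟨q, s, _, _, _⟩, _⟩ ⟨⟨q', s', _, _, _⟩, _⟩ h1
    obtain ⟨rfl, h2⟩ := Prod.mk.inj h1
    obtain rfl : s = s' := funext fun τ => by
      have h3 : ∀ r, (s τ).s r ↔ (s' τ).s r := fun r =>
        Set.ext_iff.1 (Subtype.mk.inj h2) (τ, r)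
      revert h3
      generalize s τ = a
      generalize s' τ = b
      obtain ⟨a, _, _⟩ := a
      obtain ⟨b, _, _⟩ := b
      intro h3
      obtain rfl : a = b := funext fun r => propext (h3 r)
      rfl
    rfl
  refine (mk_le_of_injective hF).trans ?_
  rw [mk_prod, lift_id, lift_id]
  refine mm _ _ (hQ.trans (cantor ν).le) ((mk_bounded_subset_le A ν).trans ?_)
  refine (power_le_power_right (max_le hA w1)).trans ?_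
  rw [← power_mul, mul_eq_self w0]

/-- The closing-off argument at level `ζ`. -/
theorem starS (ζ : W1.{u}) {ι : Type u} (hι : #ι ≤ 2 ^ Λ.lam ζ) (D : ι → Tri Λ Q → Prop)
    (hm : ∀ i p q, q ≤ p → D i p → D i q) (p : Tri Λ Q)
    (hd : ∀ i q, q ≤ p → ∃ r, r ≤ q ∧ D i r) :
    ∃ g, p.f.sub g ∧ ∃ X, X ⊆ Low Λ ζ ∧ #X ≤ 2 ^ Λ.lam ζ ∧
      ∀ i c, c ≤ ⟨p.q, g⟩ → ∃ c', c' ≤ c ∧ D i (mix X c' g) := by
  have w0 := (Λ.reg ζ).1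
  have w1 : ℵ₀ ≤ 2 ^ Λ.lam ζ := w0.trans (cantor _).le
  have w2 := isRegular_succ w1
  let G := {y : Set K × Fm Λ Q // y.1 ⊆ Low Λ ζ ∧ #y.1 ≤ 2 ^ Λ.lam ζ ∧ lsup ζ p.f ⊆ y.1 ∧
    (∀ τ r, (y.2.s τ).s r → τ.1 ∉ Low Λ ζ) ∧ (p.f.res (Low Λ ζ)ᶜ).sub y.2}
  let le : G → G → Prop := fun a b => a.1.1 ⊆ b.1.1 ∧ a.1.2.sub b.1.2
  have rf : ∀ a, le a a := fun _ => ⟨Subset.rfl, Fm.sub_rfl⟩
  have tr : ∀ a b c, le a b → le b c → le a c := fun _ _ _ h1 h2 =>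
    ⟨h1.1.trans h2.1, h1.2.trans h2.2⟩
  have ub : ∀ (J : Type u) (s : J → G), #J ≤ 2 ^ Λ.lam ζ →
      (∀ a b, le (s a) (s b) ∨ le (s b) (s a)) → ∃ u, (∀ a, le (s a) u) ∧
        (Nonempty J → ∀ x ∈ u.1.1, ∃ a, x ∈ (s a).1.1) := fun J s hJ h => by
    rcases isEmpty_or_nonempty J with h0 | ⟨⟨a⟩⟩
    · exact ⟨⟨(lsup ζ p.f, p.f.res (Low Λ ζ)ᶜ), fun _ h => h.1,
        (card_lsup ζ p.f).le.trans (cantor _).le, Subset.rfl, fun _ _ h => h.1, Fm.sub_rfl⟩,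
        fun a => h0.elim a, fun ⟨a⟩ => h0.elim a⟩
    obtain ⟨g, h1, h2⟩ := Fm.exists_ub (fun a => (s a).1.2) (fun i τ r h1 =>
      hJ.trans_lt (Λ.pow _ _ (not_le.1 ((s i).2.2.2.2.1 τ r h1))))
      fun a b => (h a b).imp And.right And.right
    exact ⟨⟨(⋃ a, (s a).1.1, g), iUnion_subset fun a => (s a).2.1, Order.lt_succ_iff.1
      ((card_iUnion_lt_iff_forall_of_isRegular w2 (Order.lt_succ_iff.2 hJ)).2 fun a =>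
        Order.lt_succ_iff.2 (s a).2.2.1), (s a).2.2.2.1.trans (subset_iUnion (fun a => (s a).1.1) a),
      fun τ r h3 => let ⟨i, t, h4⟩ := h2 τ r h3; (s i).2.2.2.2.1 τ t h4,
      (s a).2.2.2.2.2.trans (h1 a)⟩, fun a => ⟨subset_iUnion (fun a => (s a).1.1) a, h1 a⟩,
      fun _ x hx => mem_iUnion.1 hx⟩
  let E : ι → Tri Λ Q → G → Prop := fun i c v => leX (Low Λ ζ) c p → ∃ c1, leX (Low Λ ζ) c1 c ∧
    D i c1 ∧ lsup ζ c1.f ⊆ v.1.1 ∧ leT (Low Λ ζ) c1.q v.1.2 c1.f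
  have em : ∀ i c u v, le u v → E i c u → E i c v := fun i c u v h1 h2 h3 =>
    let ⟨c1, h4, h5, h6, h7⟩ := h2 h3
    ⟨c1, h4, h5, h6.trans h1.1, fun τ r h8 h9 h10 => h1.2 τ r (h7 τ r h8 h9 h10)⟩
  have ed : ∀ i c u, ∃ v, le u v ∧ E i c v := fun i c u => by
    by_cases h1 : leX (Low Λ ζ) c p
    swap
    · exact ⟨u, rf u, fun h2 => absurd h2 h1⟩
    obtain ⟨c1, h2, h3⟩ := hd i (mix (Low Λ ζ) c u.1.2) ⟨h1.1, fun τ r h2 h3 => by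
      by_cases h4 : τ.1 ∈ Low Λ ζ
      · rw [mix_in h4]; exact h1.2 τ r h4 h2 h3
      · rw [mix_out h4]; exact u.2.2.2.2.2 τ r ⟨h4, h3⟩⟩
    obtain ⟨e, e1, e2, e3⟩ := Fm.exists_join u.1.2 (c1.f.res (Low Λ ζ)ᶜ) c1.q
      fun a j j' r h4 h5 h6 => c1.f.fn a j j' r
        ((le_mix.1 h2).2 _ r (u.2.2.2.2.1 _ r h5) h4 h5) h6.2
    exact ⟨⟨(u.1.1 ∪ lsup ζ c1.f, e), union_subset u.2.1 fun _ h => h.1, Order.lt_succ_iff.1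
      (reg_un w2 (Order.lt_succ_iff.2 u.2.2.1)
        (Order.lt_succ_iff.2 ((card_lsup ζ c1.f).le.trans (cantor _).le))),
      u.2.2.2.1.trans subset_union_left, fun τ r h4 => let ⟨t, _, h5⟩ := e3 τ r h4
        h5.elim (u.2.2.2.2.1 τ t) fun h6 => h6.2.1, u.2.2.2.2.2.trans e1⟩,
      ⟨subset_union_left, e1⟩, fun _ => ⟨c1, (le_mix.1 h2).1, h3, subset_union_right,
        fun τ r h4 h5 h6 => e2 τ r h5 ⟨h4, h6⟩⟩⟩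
  obtain ⟨s, s1, s2⟩ := exists_chain le rf tr (ι := (Λ.lam ζ).ord.ToType)
    (fun i s h => (ub _ s ((card_Iio i).le.trans (cantor _).le) h).imp fun _ h => h.1)
    (fun _ u v => ∀ i c, Supp u.1.1 c → E i c v) fun _ u => by
      have h1 : #(ι × {c : Tri Λ Q // Supp u.1.1 c}) ≤ 2 ^ Λ.lam ζ := by
        rw [mk_prod, lift_id, lift_id]
        exact (mul_le_mul' hι (card_supp u.2.1 le_rfl u.2.2.1)).trans (mul_eq_self w1).le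
      obtain ⟨v, h2, h3⟩ := exists_meet' le rf tr (ι := ι × {c : Tri Λ Q // Supp u.1.1 c})
        (fun J s hJ h => (ub J s (hJ.trans h1) h).imp fun _ h => h.1)
        (fun a v => E a.1 a.2.1 v) (fun a => em a.1 a.2.1) (fun a => ed a.1 a.2.1) u
      exact ⟨v, h2, fun i c hc => h3 (i, ⟨c, hc⟩)⟩
  obtain ⟨u, u1, u2⟩ := ub _ s (by simpa using (cantor (Λ.lam ζ)).le) s1
  obtain ⟨b0, -⟩ := exists_out (κ := Λ.lam ζ) ∅ (by simpa using (Λ.reg ζ).pos)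
  choose α hα using u2 ⟨b0⟩
  have g1 : p.f.sub (mix (Low Λ ζ) p u.1.2).f := fun τ r h3 => by
    by_cases h4 : τ.1 ∈ Low Λ ζ
    · rwa [mix_in h4]
    · rw [mix_out h4]; exact u.2.2.2.2.2 τ r ⟨h4, h3⟩
  refine ⟨_, g1, u.1.1, u.2.1, u.2.2.1, fun i c hc => ?_⟩
  obtain ⟨β, hβ⟩ := exists_gt_reg (Λ.reg ζ) (Λ.w Q ζ)
    (S := range fun x : {x // x ∈ lsup ζ c.f ∧ x ∈ u.1.1} => α x.1 x.2.2)
    (mk_range_le.trans_lt (lt_of_le_of_lt (mk_le_mk_of_subset (s := {x | x ∈ lsup ζ c.f ∧ x ∈ u.1.1})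
      fun _ h => h.1) (card_lsup ζ c.f)))
  obtain ⟨v, v1, v2⟩ := s2 β
  obtain ⟨c1, h1, h2, h3, h4⟩ := em _ _ _ _ (u1 β) (v2 i (c.res u.1.1) fun τ r h1 =>
    (v1 _ (hβ _ ⟨⟨τ.1, ⟨u.2.1 h1.1, τ.2, r, h1.2⟩, h1.1⟩, rfl⟩)).1 (hα _ _))
    ⟨hc.1, fun τ r h1 h2 h3 => ⟨u.2.2.2.1 ⟨h1, τ.2, r, h3⟩, hc.2 τ r h2 (g1 τ r h3)⟩⟩
  obtain ⟨e, e1, e2, -⟩ := Fm.exists_join c.f (c1.f.res (Low Λ ζ)) c1.q
    fun a j j' r h5 h6 h7 => c1.f.fn a j j' r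
      (h1.2 _ r h7.1 h5 ⟨h3 ⟨h7.1, j', r, h7.2⟩, h6⟩) h7.2
  refine ⟨⟨c1.q, e⟩, ⟨h1.1, fun τ r _ => e1 τ r⟩, hm _ c1 _ ⟨le_rfl, fun τ r h5 h6 => ?_⟩ h2⟩
  by_cases h7 : τ.1 ∈ Low Λ ζ
  · rw [mix_in (h3 ⟨h7, τ.2, r, h6⟩)]
    exact e2 τ r h5 ⟨h7, h6⟩
  · rw [mix_out fun h8 => h7 (u.2.1 h8), mix_out h7]
    exact h4 τ r h7 h5 h6

omit hF [Preorder Q] in
theorem Lv.split (Λ : Lv k K) {ξ : W1.{u}} (h : ∃ ζ, ζ < ξ) {ι : Type u} (hι : #ι < Λ.lam ξ) :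
    ∃ F : Iio ξ → Set ι, (∀ ζ, #(F ζ) ≤ 2 ^ Λ.lam ζ) ∧ ∀ i, ∃ ζ, i ∈ F ζ := by
  obtain ⟨e⟩ : Nonempty (ι ↪ Σ ζ : Iio ξ, (2 ^ Λ.lam ζ : Cardinal.{u}).out) := by
    rw [← Cardinal.le_def, mk_sigma]
    simpa using Λ.dec ξ h _ hι
  refine ⟨fun ζ => e ⁻¹' range (Sigma.mk ζ), fun ζ =>
    (mk_preimage_of_injective _ _ e.injective).trans (mk_range_le.trans (mk_out _).le),
    fun i => ⟨(e i).1, (e i).2, rfl⟩⟩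

theorem pre (ξ : W1.{u}) {ι : Type u} (hι : #ι < Λ.lam ξ) (D : ι → Tri Λ Q → Prop)
    (hm : ∀ i p q, q ≤ p → D i p → D i q) (p : Tri Λ Q)
    (hd : ∀ i q, q ≤ p → ∃ r, r ≤ q ∧ D i r) :
    ∃ g, p.f.sub g ∧ ∀ i, ∃ S : Set (Tri Λ Q), #S < Λ.lam ξ ∧ (∀ d ∈ S, D i d) ∧
      ∀ c, c ≤ ⟨p.q, g⟩ → ∃ d ∈ S, ∃ t, t ≤ c ∧ t ≤ d := by
  by_cases h0 : ∃ ζ, ζ < ξ
  swap
  · have h1 := Λ.zero ξ fun ζ h => h0 ⟨ζ, h⟩
    obtain ⟨g, h2, S, h3⟩ := star_pre (hι.trans_eq h1) D hm p hd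
    refine ⟨g, h2, fun i => ⟨(fun d => ⟨d, g⟩) '' S i, mk_image_le.trans_lt ((h3 i).1.trans_eq h1.symm), ?_,
      fun c hc => ?_⟩⟩
    · rintro _ ⟨d, h4, rfl⟩
      exact ((h3 i).2.1 d h4).1
    · obtain ⟨d, h4, t, h5, h6⟩ := (h3 i).2.2 c.q hc.1
      exact ⟨_, ⟨d, h4, rfl⟩, _, Tri.cut h5, h6, fun τ r hr => hc.2 τ r (hr.trans h5)⟩
  obtain ⟨F, f1, f2⟩ := Λ.split h0 hι
  obtain ⟨g, hg⟩ := exists_meet (G := {f // p.f.sub f}) (fun a b => a.1.sub b.1)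
    (fun _ => Fm.sub_rfl) (fun _ _ _ => Fm.sub.trans) (ι := Iio ξ)
    (fun J s hJ => exists_ub0 p.f J (hJ.trans_lt (hF.out.ct (countable_Iio ξ))) s)
    (fun ζ g => ∀ i ∈ F ζ, ∃ S : Set (Tri Λ Q), #S < Λ.lam ξ ∧ (∀ d ∈ S, D i d) ∧
      ∀ c, c ≤ ⟨p.q, g.1⟩ → ∃ d ∈ S, ∃ t, t ≤ c ∧ t ≤ d)
    (fun ζ u v h1 h2 i hi => let ⟨S, h3, h4, h5⟩ := h2 i hi
      ⟨S, h3, h4, fun c hc => h5 c (hc.trans (Tri.mk_le le_rfl h1))⟩) fun ζ u => by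
      obtain ⟨g, h1, X, h2, h3, h4⟩ := starS ζ.1 (f1 ζ) (fun i => D i.1) (fun i => hm i.1)
        ⟨p.q, u.1⟩ fun i q hq => hd i q (hq.trans (Tri.mk_le le_rfl u.2))
      refine ⟨⟨g, u.2.trans h1⟩, h1, fun i hi => ⟨range fun c : {c : {c : Tri Λ Q // Supp X c} //
        D i (mix X c.1 g)} => mix X c.1.1 g, (mk_range_le.trans ((mk_subtype_le _).trans
          (card_supp h2 le_rfl h3))).trans_lt (Λ.pow _ _ ζ.2), ?_, fun c hc => ?_⟩⟩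
      · rintro _ ⟨c, rfl⟩
        exact c.2
      · obtain ⟨c', h5, h6⟩ := h4 ⟨i, hi⟩ c hc
        exact ⟨_, ⟨⟨⟨c'.res X, c'.supp_res⟩, hm _ _ _ (mix_mono c'.res_leX leT_rfl) h6⟩, rfl⟩,
          c', h5, le_mix.2 ⟨leX_of_le c'.le_res, fun τ r _ => (h5.trans hc).2 τ r⟩⟩
  exact ⟨g.1, g.2, fun i => let ⟨ζ, h⟩ := f2 i; hg ζ i h⟩

theorem small_cover (ξ : W1.{u}) {ι : Type u} (hι : #ι < Λ.lam ξ) {α : Type v}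
    (Φ : ι → α → Tri Λ Q → Prop) (hm : ∀ j a p q, q ≤ p → Φ j a p → Φ j a q) (p : Tri Λ Q)
    (hd : ∀ j q, q ≤ p → ∃ r, r ≤ q ∧ ∃ a, Φ j a r) : ∃ q, q ≤ p ∧ ∃ ι' : Type u,
      #ι' < Λ.lam ξ ∧ ∃ F : ι' → α, ∀ j r, r ≤ q → ∃ t, t ≤ r ∧ ∃ i, Φ j (F i) t := by
  obtain ⟨g, h1, h2⟩ := pre ξ hι (fun j c => ∃ a, Φ j a c)
    (fun _ _ _ h ⟨a, ha⟩ => ⟨a, hm _ _ _ _ h ha⟩) p hd
  choose S h2 using h2
  choose F hF' using fun i : Σ j, S j => (h2 i.1).2.1 i.2 i.2.2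
  refine ⟨⟨p.q, g⟩, Tri.mk_le le_rfl h1, _, by
    rw [mk_sigma]; exact sum_lt_of_isRegular (Λ.reg ξ) hι fun n => (h2 n).1, F, fun j r hr => ?_⟩
  obtain ⟨d, h3, t, h4, h5⟩ := (h2 j).2.2 r hr
  exact ⟨t, h4, ⟨j, d, h3⟩, hm _ _ _ _ h5 (hF' ⟨j, d, h3⟩)⟩

def down (g : Fm Λ Q) (a : RO (Tri Λ Q)) : RO Q where
  s r := a.s ⟨r, g⟩
  mono' _ _ hq h := RO.mono h (Tri.mk_le hq fun _ _ h => h)
  reg' _ h := RO.reg fun c hc =>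
    let ⟨_, h1, h2⟩ := h c.q hc.1
    ⟨_, Tri.cut h1, RO.mono h2 ⟨le_rfl, fun τ w hw => hc.2 τ w (hw.trans h1)⟩⟩

theorem no_small {ι : Type u} (hι : #ι < k) [Nonempty ι] {Le : ι → ι → RO (Tri Λ Q)}
    {p : Tri Λ Q} (rf : ∀ a, (Le a a).s p)
    (tr : ∀ a b c r, (Le a b).s r → (Le b c).s r → (Le a c).s r)
    (tree : ∀ a b c r, r ≤ p → (Le a c).s r → (Le b c).s r →
      ∃ t, t ≤ r ∧ ((Le a b).s t ∨ (Le b a).s t))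
    (split : ∀ a r, r ≤ p → ∃ t, t ≤ r ∧ ∃ b c, (Le a b).s t ∧ (Le a c).s t ∧ (Le b c).not.s t ∧
      (Le c b).not.s t) (baire : BaireN Le p) : False := by
  obtain ⟨g, h1, h2⟩ := star (ι := ι × ι) (by simpa using mul_lt_of_lt hF.out.reg.1 hι hι)
    (fun a c => (Le a.1 a.2).s c ∨ (Le a.1 a.2).not.s c)
    (fun _ _ _ h h' => h'.imp (fun h' => RO.mono h' h) fun h' => RO.mono h' h) p
    fun a q _ => RO.decide _ q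
  have k0 : ∀ {r}, r ≤ p.q → (⟨r, g⟩ : Tri Λ Q) ≤ p := fun h => Tri.mk_le h h1
  let R : ι → ι → RO Q := fun a b => (down g (Le a b)).and (bl p.q)
  have k1 : ∀ {a b r} {c : Tri Λ Q}, r ≤ p.q → c ≤ ⟨r, g⟩ → ((R a b).s c.q ↔ (Le a b).s c) :=
    fun {a b r c} hr hc => ⟨fun h => RO.mono h.1 ⟨le_rfl, hc.2⟩, fun h => ⟨RO.reg fun w hw => by
      obtain ⟨t, h3, h4⟩ := h2 (a, b) w (hw.trans (hc.1.trans hr))
      exact ⟨t, h3, h4.resolve_right fun h5 => h5 ⟨t, c.f⟩ ⟨le_rfl, fun τ v hv =>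
        hc.2 τ v (hv.trans (h3.trans hw))⟩ (RO.mono h (Tri.cut (h3.trans hw)))⟩,
      bl_of_le (hc.1.trans hr)⟩⟩
  refine hF.out.kill hι (R := R) (q := p.q) ⟨⟨fun a b c r h3 h4 => ⟨tr _ _ _ _ h3.1 h4.1, h3.2⟩,
    fun a b c r h3 h4 => ?_⟩, inferInstance, fun a => ⟨RO.mono (a := Le a a) (rf a) (k0 le_rfl), bl_of_le le_rfl⟩,
    fun a r hr => ?_, fun O r hr h3 h4 a => ?_⟩
  · obtain ⟨t, h5, h6⟩ := of_bl h3.2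
    obtain ⟨w, h7, h8⟩ := tree a b c _ (k0 h6) (RO.mono (a := R a c) h3 h5).1
      (RO.mono (a := R b c) h4 h5).1
    exact ⟨w.q, h7.1.trans h5, h8.imp (k1 h6 h7).2 (k1 h6 h7).2⟩
  · obtain ⟨t, h3, b, c, h4, h5, h6, h7⟩ := split a _ (k0 hr)
    exact ⟨t.q, h3.1, b, c, (k1 hr h3).2 h4, (k1 hr h3).2 h5,
      fun w hw h8 => h6 _ (Tri.cut hw) ((k1 hr ((Tri.cut hw).trans h3)).1 h8),
      fun w hw h8 => h7 _ (Tri.cut hw) ((k1 hr ((Tri.cut hw).trans h3)).1 h8)⟩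
  · obtain ⟨w, h5, b, h6, h7⟩ := baire (fun n a => Tri.proj.up (O n a)) _ (k0 hr)
      (fun n a b t ht h5 h6 => h3 n a b t.q ht.1 h5 ((k1 hr ht).2 h6)) (fun n a t ht => by
        obtain ⟨w, h5, b, h6, h7⟩ := h4 n a t.q ht.1
        exact ⟨_, Tri.cut h5, b, (k1 hr ((Tri.cut h5).trans ht)).1 h6, h7⟩) a
    exact ⟨w.q, h5.1, b, (k1 hr h5).2 h6, h7⟩

end Pool.Agent.Lib.MP_0fa4a2_gt.BB
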