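import Pool.Agent.Lib.MP_0fa4a2_gt.Final

/-! The second step: a product of collapses along `ω₁` levels, computed in the first extension. -/

namespace Pool.Agent.Lib.MP_0fa4a2_gt.BB

open Pool.Agent.Lib.MP_2739cb_lc Pool.Agent.Lib.MP_783f50_lc Pool.Agent.Lib.MP_0fa4a2_gt
  Cardinal Set

universe u v

/-- The levels: cardinals `lam ξ`, positions of level `ξ`, and values allowed at level `ξ`. -/
structure Lv (k : Cardinal.{u}) (K : Type u) where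
  lam : W1.{u} → Cardinal.{u}
  lev : K → W1.{u}
  val : W1.{u} → Set K
  reg : ∀ ξ, (lam ξ).IsRegular
  kle : ∀ ξ, k ≤ lam ξ
  zero : ∀ ξ, (∀ ζ, ¬ ζ < ξ) → lam ξ = k
  pow : ∀ ζ ξ, ζ < ξ → 2 ^ lam ζ < lam ξ
  dec : ∀ ξ, (∃ ζ, ζ < ξ) → ∀ c, c < lam ξ → c ≤ sum fun ζ : Iio ξ => 2 ^ lam ζ
  cv : ∀ ζ, #(val ζ) = 2 ^ lam ζ
  big : ∀ ζ, 2 ^ lam ζ < #{a | lev a = ζ}
  cl : ∀ ζ ξ, ζ < ξ → #{a | lev a = ζ} ≤ lam ξ

variable {k : Cardinal.{u}} {Q K : Type u} [Preorder Q]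

theorem Lv.mono (Λ : Lv k K) {ζ ξ : W1.{u}} (h : ζ ≤ ξ) : Λ.lam ζ ≤ Λ.lam ξ := by
  rcases h.lt_or_eq with h | rfl
  · exact ((cantor _).trans (Λ.pow _ _ h)).le
  · exact le_rfl

structure Fm (Λ : Lv k K) (Q : Type u) [Preorder Q] where
  s : K × K → RO Q
  sm : ∀ ξ, #{τ | Λ.lev τ.1 = ξ ∧ ∃ r, (s τ).s r} < Λ.lam ξ
  le : ∀ τ r, (s τ).s r → τ.2 ∈ Λ.val (Λ.lev τ.1)
  fn : ∀ a j j' r, (s (a, j)).s r → (s (a, j')).s r → j = j'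

structure Tri (Λ : Lv k K) (Q : Type u) [Preorder Q] where
  q : Q
  f : Fm Λ Q

variable {Λ : Lv k K}

instance : Preorder (Tri Λ Q) where
  le p' p := p'.q ≤ p.q ∧ ∀ τ r, r ≤ p'.q → (p.f.s τ).s r → (p'.f.s τ).s r
  le_refl _ := ⟨le_rfl, fun _ _ _ h => h⟩
  le_trans _ _ _ h1 h2 := ⟨h1.1.trans h2.1, fun τ r h h' => h1.2 τ r h (h2.2 τ r (h.trans h1.1) h')⟩

def Fm.sub (f g : Fm Λ Q) : Prop := ∀ τ r, (f.s τ).s r → (g.s τ).s r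

theorem Fm.sub_rfl {f : Fm Λ Q} : f.sub f := fun _ _ h => h

theorem Fm.sub.trans {f g h : Fm Λ Q} (h1 : f.sub g) (h2 : g.sub h) : f.sub h :=
  fun τ r h3 => h2 τ r (h1 τ r h3)

theorem Tri.mk_le {q q' : Q} {f f' : Fm Λ Q} (h : q' ≤ q) (h' : f.sub f') :
    (⟨q', f'⟩ : Tri Λ Q) ≤ ⟨q, f⟩ := ⟨h, fun τ r _ => h' τ r⟩

theorem Tri.cut {p : Tri Λ Q} {r : Q} (h : r ≤ p.q) : (⟨r, p.f⟩ : Tri Λ Q) ≤ p :=
  ⟨h, fun _ _ _ h => h⟩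

theorem Tri.proj : Proj (Tri.q : Tri Λ Q → Q) :=
  ⟨fun _ _ h => h.1, fun p z h => ⟨⟨z, p.f⟩, Tri.cut h, le_rfl⟩⟩

theorem reg_un {c : Cardinal.{u}} (h : c.IsRegular) {α : Type u} {S T : Set α} (h1 : #S < c)
    (h2 : #T < c) : #(S ∪ T : Set α) < c := (mk_union_le _ _).trans_lt (add_lt_of_lt h.1 h1 h2)

theorem reg_opt {c : Cardinal.{u}} (h : c.IsRegular) {ι : Type u} (hι : #ι < c) :
    #(Option ι) < c := by
  rw [mk_option]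
  exact add_lt_of_lt h.1 hι (one_lt_aleph0.trans_le h.1)

def Fm.bot : Fm Λ Q :=
  ⟨fun _ => RO.bot, fun ξ => lt_of_le_of_lt (mk_le_mk_of_subset (t := ∅) fun _ h => h.2.choose_spec)
    (by simpa using (Λ.reg ξ).pos), fun _ _ h => h.elim, fun _ _ _ _ h => h.elim⟩

instance [OrderTop Q] : OrderTop (Tri Λ Q) where
  top := ⟨⊤, Fm.bot⟩
  le_top _ := ⟨le_top, fun _ _ _ h => h.elim⟩

/-- Restriction to a set of positions. -/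
def Fm.res (X : Set K) (f : Fm Λ Q) : Fm Λ Q :=
  ⟨fun τ => (cst (τ.1 ∈ X)).and (f.s τ),
    fun ξ => lt_of_le_of_lt (mk_le_mk_of_subset
      (t := {τ | Λ.lev τ.1 = ξ ∧ ∃ r, (f.s τ).s r}) fun _ h => ⟨h.1, h.2.imp fun _ h => h.2⟩)
      (f.sm ξ),
    fun τ r h => f.le τ r h.2, fun a j j' r h h' => f.fn a j j' r h.2 h'.2⟩

theorem Fm.exists_un {ι : Type u} (c : ι → RO Q) (f : ι → Fm Λ Q)
    (hι : ∀ i τ r, ((f i).s τ).s r → #ι < Λ.lam (Λ.lev τ.1))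
    (h : ∀ i i' a j j' r, (c i).s r → (c i').s r → ((f i).s (a, j)).s r →
      ((f i').s (a, j')).s r → j = j') :
    ∃ g : Fm Λ Q, ∀ τ, g.s τ = RO.ex fun i => (c i).and ((f i).s τ) := by
  refine ⟨⟨fun τ => RO.ex fun i => (c i).and ((f i).s τ), fun ξ => ?_,
    fun τ r h1 => ?_, fun a j j' r h1 h2 => ?_⟩, fun _ => rfl⟩
  · by_cases h0 : #ι < Λ.lam ξ
    · refine (mk_le_mk_of_subset ?_).trans_lt
        ((card_iUnion_lt_iff_forall_of_isRegular (Λ.reg ξ) h0).2 fun i => (f i).sm ξ)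
      rintro τ ⟨h2, r, h1⟩
      obtain ⟨t, -, i, -, h3⟩ := h1 r le_rfl
      exact mem_iUnion.2 ⟨i, h2, t, h3⟩
    · refine lt_of_le_of_lt (mk_le_mk_of_subset (t := ∅) ?_) (by simpa using (Λ.reg ξ).pos)
      rintro τ ⟨h2, r, h1⟩
      obtain ⟨t, -, i, -, h3⟩ := h1 r le_rfl
      exact h0 (h2 ▸ hι i τ t h3)
  · obtain ⟨t, -, i, -, h2⟩ := h1 r le_rfl
    exact (f i).le τ t h2
  · obtain ⟨t, ht, i, h3, h4⟩ := h1 r le_rfl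
    obtain ⟨w, hw, i', h5, h6⟩ := h2 t ht
    exact h i i' a j j' w (RO.mono h3 hw) h5 (RO.mono h4 hw) h6

theorem Fm.exists_ub {ι : Type u} (f : ι → Fm Λ Q)
    (hι : ∀ i τ r, ((f i).s τ).s r → #ι < Λ.lam (Λ.lev τ.1))
    (h : ∀ i j, (f i).sub (f j) ∨ (f j).sub (f i)) :
    ∃ g : Fm Λ Q, (∀ i, (f i).sub g) ∧ ∀ τ r, (g.s τ).s r → ∃ i t, ((f i).s τ).s t := by
  obtain ⟨g, hg⟩ := Fm.exists_un (fun _ => cst True) f hι fun i i' a j j' r _ _ h1 h2 =>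
    (h i i').elim (fun h => (f i').fn _ _ _ _ (h _ _ h1) h2) fun h => (f i).fn _ _ _ _ h1 (h _ _ h2)
  refine ⟨g, fun i τ r h1 => hg τ ▸ RO.ex_intro i ⟨trivial, h1⟩, fun τ r h1 => ?_⟩
  obtain ⟨t, -, i, -, h2⟩ := (hg τ ▸ h1) r le_rfl
  exact ⟨i, t, h2⟩

/-- Adding to `f`, below `z`, the atoms of `g`. -/
theorem Fm.exists_join (f g : Fm Λ Q) (z : Q)
    (h : ∀ a j j' r, r ≤ z → (f.s (a, j)).s r → (g.s (a, j')).s r → j = j') :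
    ∃ e : Fm Λ Q, f.sub e ∧ (∀ τ r, r ≤ z → (g.s τ).s r → (e.s τ).s r) ∧
      ∀ τ r, (e.s τ).s r → ∃ t, t ≤ r ∧ ((f.s τ).s t ∨ (t ≤ z ∧ (g.s τ).s t)) := by
  obtain ⟨e, he⟩ := Fm.exists_un (ι := ULift.{u} Bool)
    (fun i => if i.down then cst True else bl z) (fun i => if i.down then f else g)
    (fun _ τ _ _ => (lt_aleph0_of_finite _).trans_le (Λ.reg _).1) (by
      rintro ⟨_ | _⟩ ⟨_ | _⟩ a j j' r h1 h2 h3 h4
      · exact g.fn _ _ _ _ h3 h4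
      · obtain ⟨t, h5, h6⟩ := of_bl h1
        exact (h a j' j t h6 (RO.mono h4 h5) (RO.mono h3 h5)).symm
      · obtain ⟨t, h5, h6⟩ := of_bl h2
        exact h a j j' t h6 (RO.mono h3 h5) (RO.mono h4 h5)
      · exact f.fn _ _ _ _ h3 h4)
  refine ⟨e, fun τ r h1 => he τ ▸ RO.ex_intro ⟨true⟩ ⟨trivial, h1⟩,
    fun τ r h1 h2 => he τ ▸ RO.ex_intro ⟨false⟩ ⟨bl_of_le h1, h2⟩, fun τ r h1 => ?_⟩
  obtain ⟨t, h2, ⟨_ | _⟩, h3, h4⟩ := (he τ ▸ h1) r le_rfl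
  · obtain ⟨w, h5, h6⟩ := of_bl h3
    exact ⟨w, h5.trans h2, Or.inr ⟨h6, RO.mono h4 h5⟩⟩
  · exact ⟨t, h2, Or.inl h4⟩

/-- Transfinite increasing sequences with a task at each step. -/
theorem exists_chain {G : Type v} (le : G → G → Prop) (rf : ∀ a, le a a)
    (tr : ∀ a b c, le a b → le b c → le a c) {ι : Type u} [LinearOrder ι] [WellFoundedLT ι]
    (ub : ∀ (i : ι) (s : Iio i → G), (∀ a b, le (s a) (s b) ∨ le (s b) (s a)) →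
      ∃ u, ∀ a, le (s a) u)
    (R : ι → G → G → Prop) (hR : ∀ i u, ∃ v, le u v ∧ R i u v) :
    ∃ s : ι → G, (∀ i j, le (s i) (s j) ∨ le (s j) (s i)) ∧
      ∀ i, ∃ u, (∀ j, j < i → le (s j) u) ∧ R i u (s i) := by
  classical
  choose F h1 h2 using hR
  have hne : ∀ i : ι, Nonempty G := fun i => by
    obtain ⟨m, -, hm⟩ := WellFounded.has_min (wellFounded_lt (α := ι)) univ ⟨i, trivial⟩
    obtain ⟨u, -⟩ := ub m (fun a => absurd a.2 (hm a.1 trivial)) fun a => absurd a.2 (hm a.1 trivial)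
    exact ⟨u⟩
  let U : ∀ i : ι, (∀ j, j < i → G) → G := fun i rec =>
    if h : ∃ g : G, ∀ j hj, le (rec j hj) g then h.choose else (hne i).some
  let s : ι → G := WellFoundedLT.fix fun i rec => F i (U i rec)
  have hs : ∀ i, s i = F i (U i fun j _ => s j) := fun i => by
    simp only [s]
    rw [WellFoundedLT.fix_eq]
  have tri : ∀ i j, (j < i → le (s j) (s i)) → (i < j → le (s i) (s j)) →
      le (s i) (s j) ∨ le (s j) (s i) := fun i j h3 h4 => by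
    rcases lt_trichotomy i j with h | rfl | h
    · exact Or.inl (h4 h)
    · exact Or.inl (rf _)
    · exact Or.inr (h3 h)
  have k0 : ∀ i, (∀ a b, a < i → b < a → le (s b) (s a)) →
      ∀ j, j < i → le (s j) (U i fun j _ => s j) := fun i ih j hj => by
    obtain ⟨g, h3⟩ := ub i (fun a => s a) fun a b => tri _ _ (ih _ _ a.2) (ih _ _ b.2)
    have h5 : ∃ g : G, ∀ j (_ : j < i), le (s j) g := ⟨g, fun j hj => h3 ⟨j, hj⟩⟩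
    simp only [U, dif_pos h5]
    exact h5.choose_spec j hj
  have key : ∀ i j, j < i → le (s j) (s i) := fun i => by
    induction i using WellFoundedLT.induction with
    | ind i ih =>
      intro j hj
      rw [hs i]
      exact tr _ _ _ (k0 i (fun a b ha => ih a ha b) j hj) (h1 _ _)
  refine ⟨s, fun i j => tri _ _ (key _ _) (key _ _), fun i =>
    ⟨_, k0 i fun a b _ => key a b, ?_⟩⟩
  rw [hs i]
  exact h2 _ _

/-- Meeting a family of dense upward closed sets. -/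
theorem exists_meet {G : Type v} (le : G → G → Prop) (rf : ∀ a, le a a)
    (tr : ∀ a b c, le a b → le b c → le a c) {ι : Type u}
    (ub : ∀ (J : Type u) (s : J → G), #J ≤ #ι → (∀ a b, le (s a) (s b) ∨ le (s b) (s a)) →
      ∃ u, ∀ a, le (s a) u)
    (E : ι → G → Prop) (hm : ∀ i u v, le u v → E i u → E i v) (hd : ∀ i u, ∃ v, le u v ∧ E i v) :
    ∃ v, ∀ i, E i v := by
  obtain ⟨_, _⟩ := exists_wellFoundedLT ι
  obtain ⟨s, h1, h2⟩ := exists_chain le rf tr (fun i s => ub _ s (mk_subtype_le _))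
    (fun i _ v => E i v) hd
  obtain ⟨v, hv⟩ := ub ι s le_rfl h1
  exact ⟨v, fun i => let ⟨_, _, h3⟩ := h2 i; hm i _ _ (hv i) h3⟩

theorem exists_ub0 (f0 : Fm Λ Q) (J : Type u) (hJ : #J < k) (s : J → {f // f0.sub f})
    (h : ∀ a b, (s a).1.sub (s b).1 ∨ (s b).1.sub (s a).1) :
    ∃ u : {f // f0.sub f}, ∀ a, (s a).1.sub u.1 := by
  rcases isEmpty_or_nonempty J with hJ | ⟨⟨a⟩⟩
  · exact ⟨⟨f0, Fm.sub_rfl⟩, fun a => hJ.elim a⟩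
  obtain ⟨g, hg, -⟩ := Fm.exists_ub (fun a => (s a).1) (fun _ _ _ _ => hJ.trans_le (Λ.kle _)) h
  exact ⟨⟨g, (s a).2.trans (hg a)⟩, hg⟩

variable [hF : Fact (First k Q)]

theorem star1 {D : Tri Λ Q → Prop} (hm : ∀ p q, q ≤ p → D p → D q) (p : Tri Λ Q)
    (hd : ∀ q, q ≤ p → ∃ r, r ≤ q ∧ D r) :
    ∃ g, p.f.sub g ∧ ∀ r, r ≤ p.q → ∃ t, t ≤ r ∧ D ⟨t, g⟩ := by
  obtain ⟨S, h1, h2, h3⟩ := hF.out.pre (fun r => ∃ c, c ≤ p ∧ D c ∧ r ≤ c.q) p.q fun r hr => by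
    obtain ⟨c, h1, h2⟩ := hd _ (Tri.cut hr)
    exact ⟨c.q, h1.1, c, h1.trans (Tri.cut hr), h2, le_rfl⟩
  choose c h4 h5 h6 using fun d : S => (h2 d d.2).1
  obtain ⟨F, f1, f2, f3⟩ := exists_first fun d : S => bl d.1
  have key : ∀ i τ r, (F i).s r → (p.f.s τ).s r → ((c i).f.s τ).s r := fun i τ r h7 h8 =>
    RO.reg fun t ht => by
      obtain ⟨w, h9, h10⟩ := f1 i r h7 t ht
      exact ⟨w, h9, (h4 i).2 τ w (h10.trans (h6 i)) (RO.mono h8 (h9.trans ht))⟩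
  obtain ⟨g, hg⟩ := Fm.exists_un (fun i : Option S => i.elim (cst True) F)
    (fun i => i.elim p.f fun d => (c d).f) (fun _ _ _ _ => (hF.out.opt h1).trans_le (Λ.kle _)) (by
      rintro (_ | i) (_ | i') a j j' r h7 h8 h9 h10
      · exact p.f.fn _ _ _ _ h9 h10
      · exact (c i').f.fn _ _ _ _ (key _ _ _ h8 h9) h10
      · exact (c i).f.fn _ _ _ _ h9 (key _ _ _ h7 h10)
      · obtain rfl := f2 i i' r h7 h8
        exact (c i).f.fn _ _ _ _ h9 h10)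
  refine ⟨g, fun τ r h7 => hg τ ▸ RO.ex_intro none ⟨trivial, h7⟩, fun r hr => ?_⟩
  obtain ⟨d, h7, t, h8, h9⟩ := h3 r hr
  obtain ⟨w, h10, j, h11⟩ := f3 ⟨d, h7⟩ t (bl_of_le h9)
  obtain ⟨w', h12, h13⟩ := of_bl (f1 _ _ h11)
  exact ⟨w', h12.trans (h10.trans h8), hm _ _ ⟨h13.trans (h6 j), fun τ x hx h =>
    hg τ ▸ RO.ex_intro (some j) ⟨RO.mono h11 (hx.trans h12), h⟩⟩ (h5 j)⟩

theorem star {ι : Type u} (hι : #ι < k) (D : ι → Tri Λ Q → Prop)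
    (hm : ∀ i p q, q ≤ p → D i p → D i q) (p : Tri Λ Q)
    (hd : ∀ i q, q ≤ p → ∃ r, r ≤ q ∧ D i r) :
    ∃ g, p.f.sub g ∧ ∀ i r, r ≤ p.q → ∃ t, t ≤ r ∧ D i ⟨t, g⟩ := by
  obtain ⟨g, hg⟩ := exists_meet (G := {f // p.f.sub f}) (fun a b => a.1.sub b.1)
    (fun _ => Fm.sub_rfl) (fun _ _ _ => Fm.sub.trans)
    (fun J s hJ => exists_ub0 p.f J (hJ.trans_lt hι) s)
    (fun i g => ∀ r, r ≤ p.q → ∃ t, t ≤ r ∧ D i ⟨t, g.1⟩)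
    (fun i u v h1 h2 r hr => let ⟨t, h3, h4⟩ := h2 r hr
      ⟨t, h3, hm _ _ _ (Tri.mk_le le_rfl h1) h4⟩) fun i u => by
      obtain ⟨g, h1, h2⟩ := star1 (hm i) ⟨p.q, u.1⟩
        fun q hq => hd i q (hq.trans (Tri.mk_le le_rfl u.2))
      exact ⟨⟨g, u.2.trans h1⟩, h1, h2⟩
  exact ⟨g.1, g.2, hg⟩

instance : CovC (Tri Λ Q) := ⟨fun D hm p hd => by
  have := hF.out.cov
  obtain ⟨g, h1, h2⟩ := star (ι := ULift.{u} ℕ) (mk_le_aleph0.trans_lt hF.out.w)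
    (fun n r => ∃ a, D n.down a r)
    (fun _ _ _ h ⟨a, ha⟩ => ⟨a, hm _ _ _ _ h ha⟩) p fun n => hd n.down
  obtain ⟨q, h3, S, h4, h5⟩ := CovC.out (fun n a r => D n a ⟨r, g⟩)
    (fun _ _ _ _ h => hm _ _ _ _ (Tri.mk_le h fun _ _ h => h)) p.q fun n => h2 ⟨n⟩
  refine ⟨⟨q, g⟩, Tri.mk_le h3 h1, S, h4, fun n c hc => ?_⟩
  obtain ⟨t, h6, a, h7, h8⟩ := h5 n c.q hc.1
  exact ⟨_, Tri.cut h6, a, h7, hm _ _ ⟨t, g⟩ _ ⟨le_rfl, fun τ r hr => hc.2 τ r (hr.trans h6)⟩ h8⟩⟩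

theorem star_pre {ι : Type u} (hι : #ι < k) (D : ι → Tri Λ Q → Prop)
    (hm : ∀ i p q, q ≤ p → D i p → D i q) (p : Tri Λ Q)
    (hd : ∀ i q, q ≤ p → ∃ r, r ≤ q ∧ D i r) : ∃ g, p.f.sub g ∧ ∃ S : ι → Set Q,
      ∀ i, #(S i) < k ∧ (∀ d ∈ S i, D i ⟨d, g⟩ ∧ d ≤ p.q) ∧
        ∀ r, r ≤ p.q → ∃ d ∈ S i, ∃ t, t ≤ r ∧ t ≤ d := by
  obtain ⟨g, h1, h2⟩ := star hι D hm p hd
  choose S hS using fun i => hF.out.pre (fun r => D i ⟨r, g⟩) p.q (h2 i)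
  exact ⟨g, h1, S, hS⟩

omit hF

open Classical in
noncomputable def mix (X : Set K) (p : Tri Λ Q) (t : Fm Λ Q) : Tri Λ Q :=
  ⟨p.q, fun τ => if τ.1 ∈ X then p.f.s τ else t.s τ, fun ξ =>
    (mk_le_mk_of_subset (t := {τ | Λ.lev τ.1 = ξ ∧ ∃ r, (p.f.s τ).s r} ∪
      {τ | Λ.lev τ.1 = ξ ∧ ∃ r, (t.s τ).s r}) fun τ h => by
      obtain ⟨h0, r, h⟩ := h
      split_ifs at h
      exacts [Or.inl ⟨h0, r, h⟩, Or.inr ⟨h0, r, h⟩]).trans_lt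
        (reg_un (Λ.reg ξ) (p.f.sm ξ) (t.sm ξ)), fun τ r h => by
      split_ifs at h
      exacts [p.f.le τ r h, t.le τ r h], fun a j j' r h h' => by
      by_cases ha : a ∈ X <;> simp only [ha, if_true, if_false] at h h'
      exacts [p.f.fn _ _ _ _ h h', t.fn _ _ _ _ h h']⟩

def leX (X : Set K) (p' p : Tri Λ Q) : Prop :=
  p'.q ≤ p.q ∧ ∀ τ r, τ.1 ∈ X → r ≤ p'.q → (p.f.s τ).s r → (p'.f.s τ).s r

def leT (X : Set K) (q : Q) (t' t : Fm Λ Q) : Prop :=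
  ∀ τ r, τ.1 ∉ X → r ≤ q → (t.s τ).s r → (t'.s τ).s r

def Supp (X : Set K) (p : Tri Λ Q) : Prop := ∀ τ r, (p.f.s τ).s r → τ.1 ∈ X

variable {X : Set K}

theorem leX.trans {a b c : Tri Λ Q} (h1 : leX X a b) (h2 : leX X b c) : leX X a c :=
  ⟨h1.1.trans h2.1, fun τ r h h' h3 => h1.2 τ r h h' (h2.2 τ r h (h'.trans h1.1) h3)⟩

theorem leX_of_le {a b : Tri Λ Q} (h : a ≤ b) : leX X a b := ⟨h.1, fun τ r _ => h.2 τ r⟩

theorem le_of_leX {a b : Tri Λ Q} (h : leX X a b) (hb : Supp X b) : a ≤ b :=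
  ⟨h.1, fun τ r h1 h2 => h.2 τ r (hb τ r h2) h1 h2⟩

theorem leT.trans {q : Q} {a b c : Fm Λ Q} (h1 : leT X q a b) (h2 : leT X q b c) :
    leT X q a c := fun τ r h h' h3 => h1 τ r h h' (h2 τ r h h' h3)

theorem leT.mono {q q' : Q} {a b : Fm Λ Q} (h1 : leT X q a b) (h : q' ≤ q) : leT X q' a b :=
  fun τ r h2 h3 => h1 τ r h2 (h3.trans h)

theorem leT_rfl {q : Q} {a : Fm Λ Q} : leT X q a a := fun _ _ _ _ h => h

theorem mix_in {p : Tri Λ Q} {t : Fm Λ Q} {τ : K × K} (h : τ.1 ∈ X) :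
    (mix X p t).f.s τ = p.f.s τ := if_pos h

theorem mix_out {p : Tri Λ Q} {t : Fm Λ Q} {τ : K × K} (h : τ.1 ∉ X) :
    (mix X p t).f.s τ = t.s τ := if_neg h

theorem le_mix {c p : Tri Λ Q} {t : Fm Λ Q} :
    c ≤ mix X p t ↔ leX X c p ∧ leT X c.q c.f t := by
  constructor
  · exact fun h => ⟨⟨h.1, fun τ r h1 h2 h3 => h.2 τ r h2 (by rwa [mix_in h1])⟩,
      fun τ r h1 h2 h3 => h.2 τ r h2 (by rwa [mix_out h1])⟩
  · refine fun h => ⟨h.1.1, fun τ r h1 h2 => ?_⟩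
    by_cases h3 : τ.1 ∈ X
    · exact h.1.2 τ r h3 h1 (by rwa [mix_in h3] at h2)
    · exact h.2 τ r h3 h1 (by rwa [mix_out h3] at h2)

theorem mix_leX (p : Tri Λ Q) (t : Fm Λ Q) : leX X (mix X p t) p := (le_mix.1 le_rfl).1

theorem mix_mono {p p' : Tri Λ Q} {t t' : Fm Λ Q} (h1 : leX X p' p) (h2 : leT X p'.q t' t) :
    mix X p' t' ≤ mix X p t :=
  le_mix.2 ⟨(mix_leX _ _).trans h1, leT.trans (le_mix.1 le_rfl).2 h2⟩

theorem mix_le_left {p : Tri Λ Q} (h : Supp X p) (t : Fm Λ Q) : mix X p t ≤ p :=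
  le_of_leX (mix_leX _ _) h

theorem mix_le_right {p c : Tri Λ Q} (h : leX X p c) : mix X p c.f ≤ c := by
  refine ⟨h.1, fun τ r h1 h2 => ?_⟩
  by_cases h3 : τ.1 ∈ X
  · exact (mix_leX p c.f).2 τ r h3 h1 (h.2 τ r h3 h1 h2)
  · exact (le_mix.1 le_rfl).2 τ r h3 h1 h2

theorem leX_mix (p : Tri Λ Q) (t : Fm Λ Q) : leX X p (mix X p t) :=
  ⟨le_rfl, fun _ _ h1 _ h2 => by rwa [mix_in h1] at h2⟩

/-- The part of `p` on `X`. -/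
def Tri.res (X : Set K) (p : Tri Λ Q) : Tri Λ Q := ⟨p.q, p.f.res X⟩

theorem Tri.supp_res (p : Tri Λ Q) : Supp X (p.res X) := fun _ _ h => h.1

theorem Tri.le_res (p : Tri Λ Q) : p ≤ p.res X := ⟨le_rfl, fun _ _ _ h => h.2⟩

theorem Tri.res_leX (p : Tri Λ Q) : leX X (p.res X) p := ⟨le_rfl, fun _ _ h1 _ h => ⟨h1, h⟩⟩

/-- The least position of `Z` which is not yet defined receives the value `j`. -/
theorem exists_add [LinearOrder K] [WellFoundedLT K] (p : Tri Λ Q) {ζ : W1.{u}} {Z : Set K}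
    (hZ : ∀ a ∈ Z, Λ.lev a = ζ) (hc : Λ.lam ζ ≤ #Z) {j : K} (hj : j ∈ Λ.val ζ) :
    ∃ c, c ≤ p ∧ ∃ ξ ∈ Z, (c.f.s (ξ, j)).s c.q ∧ ∀ η ∈ Z, η < ξ → ∀ c', c' ≤ c → ∀ j',
      (c'.f.s (η, j')).s c'.q → ∃ t, t ≤ c'.q ∧ (p.f.s (η, j')).s t := by
  obtain ⟨ξ0, h0, h0'⟩ : ∃ ξ ∈ Z,
      ξ ∉ (fun τ : K × K => τ.1) '' {τ | Λ.lev τ.1 = ζ ∧ ∃ r, (p.f.s τ).s r} := by
    by_contra h
    push Not at h
    exact (((mk_le_mk_of_subset h).trans mk_image_le).trans_lt (p.f.sm ζ)).not_ge hc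
  obtain ⟨ξ, ⟨h4, r, h1, h2⟩, h3⟩ := WellFounded.has_min wellFounded_lt
    {ξ | ξ ∈ Z ∧ ∃ r, r ≤ p.q ∧ ∀ j' t, t ≤ r → ¬ (p.f.s (ξ, j')).s t}
    ⟨ξ0, h0, p.q, le_rfl, fun j' t _ h => h0' ⟨(ξ0, j'), ⟨hZ _ h0, t, h⟩, rfl⟩⟩
  let e : Fm Λ Q := ⟨fun τ => cst (τ = (ξ, j)), fun ζ' =>
    lt_of_le_of_lt (mk_le_mk_of_subset (t := {(ξ, j)}) fun τ h => h.2.choose_spec)
      (by simpa using one_lt_aleph0.trans_le (Λ.reg ζ').1), fun τ t (h : τ = _) => by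
      rw [h, hZ ξ h4]; exact hj, fun a i i' t (h : _ = _) (h' : _ = _) => by
      cases h; cases h'; rfl⟩
  obtain ⟨g, g1, g2, -⟩ := Fm.exists_join p.f e r fun a i i' t h5 h6 (h7 : _ = _) => by
    cases h7
    exact absurd h6 (h2 _ t h5)
  refine ⟨⟨r, g⟩, Tri.mk_le h1 g1, ξ, h4, g2 _ r le_rfl rfl, fun η h5 hη c hc j' h6 => ?_⟩
  obtain ⟨i, t, h7, h8⟩ : ∃ i t, t ≤ c.q ∧ (p.f.s (η, i)).s t := by
    by_contra h7
    exact h3 η ⟨h5, c.q, hc.1.trans h1, fun i t h8 h9 => h7 ⟨i, t, h8, h9⟩⟩ hη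
  exact ⟨t, h7, c.f.fn _ _ _ t (hc.2 _ t h7 (g1 _ _ h8)) (RO.mono h6 h7) ▸ h8⟩

end Pool.Agent.Lib.MP_0fa4a2_gt.BB
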