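import Pool.Agent.Lib.MP_0fa4a2_gt.BB.Play

/-! Reflection at one level: fresh positions add a nowhere dense subtree with the Baire
property. -/

namespace Pool.Agent.Lib.MP_0fa4a2_gt.BB

open Pool.Agent.Lib.MP_2739cb_lc Pool.Agent.Lib.MP_783f50_lc Pool.Agent.Lib.MP_0fa4a2_gt
  Cardinal Set

universe u v

variable {k : Cardinal.{u}} {Q K I : Type u} [Preorder Q] {Λ : Lv k K}

/-- Below `p0` the truth value `a` depends only on the positions in `X`. -/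
def Ind (X : Set K) (p0 : Tri Λ Q) (a : RO (Tri Λ Q)) : Prop :=
  ∀ c c', c ≤ p0 → leX X c' c → a.s c → a.s c'

theorem Ind.not {X : Set K} {p0 : Tri Λ Q} {a : RO (Tri Λ Q)} (hs : Supp X p0)
    (h : Ind X p0 a) : Ind X p0 a.not := fun _ _ h1 h2 h3 r hr h4 =>
  h3 _ (mix_le_right ((leX_of_le hr).trans h2)) (h r _ (le_of_leX (((leX_of_le hr).trans h2).trans
    (leX_of_le h1)) hs) (mix_leX _ _) h4)

theorem Ind.inc {X : Set K} {p0 : Tri Λ Q} {Le : I → I → RO (Tri Λ Q)} (hs : Supp X p0)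
    (h : ∀ a b, Ind X p0 (Le a b)) (a b : I) : Ind X p0 (inc Le a b) := fun c c' h1 h2 h3 =>
  ⟨(h a b).not hs c c' h1 h2 h3.1, (h b a).not hs c c' h1 h2 h3.2⟩

theorem Pl.leX [LinearOrder I] {X : Set K} {p0 : Tri Λ Q} {Le : I → I → RO (Tri Λ Q)} {w0 : I}
    {Val : List (I × I) → Tri Λ Q → Prop} (hs : Supp X p0) (iL : ∀ a b, Ind X p0 (Le a b))
    (vm : ∀ s p q, leX X q p → Val s p → Val s q) {s : List (I × I)} {z : I} {c c' : Tri Λ Q}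
    (h : Pl Le w0 Val s z c) (h1 : c ≤ p0) (h2 : leX X c' c) : Pl Le w0 Val s z c' := by
  induction s with
  | nil => exact iL _ _ c c' h1 h2 h
  | cons a s ih =>
    refine ⟨ih h.1, iL _ _ c c' h1 h2 h.2.1, vm _ _ _ h2 h.2.2.1, iL _ _ c c' h1 h2 h.2.2.2.1,
      fun u hu w t ht h3 h4 => ?_⟩
    have h5 := (leX_of_le ht).trans h2
    have h6 := mix_le_right h5
    exact Ind.inc hs iL _ _ _ t (h6.trans h1) (leX_mix _ _) (h.2.2.2.2 u hu w _ h6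
      (iL _ _ t _ (le_of_leX (h5.trans (leX_of_le h1)) hs) (mix_leX _ _) h3)
      (vm _ _ _ (mix_leX _ _) h4))

/-- A set of fresh positions of level `ζ` (the complement of `X`) and a coding of the tasks. -/
structure Cf (Λ : Lv k K) (I : Type u) where
  ζ : W1.{u}
  X : Set K
  e : K → I × Bool
  hZ : ∀ a ∈ Xᶜ, Λ.lev a = ζ
  hc : Λ.lam ζ ≤ #(Xᶜ : Set K)
  eS : ∀ i b, ∃ j ∈ Λ.val ζ, e j = (i, b)

variable [LinearOrder K] (m : Cf Λ I) (Le In Fb : I → I → RO (Tri Λ Q))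

def gv (ξ : K) (y : I × Bool) : RO (Tri Λ Q) :=
  RO.dense fun c => ξ ∉ m.X ∧ ∃ j, (c.f.s (ξ, j)).s c.q ∧ m.e j = y

def acc0 (ξ : K) (v : I) : RO (Tri Λ Q) := (gv m ξ (v, false)).and
  (RO.all fun η : {η // η < ξ} => RO.all fun y => (gv m η (y, true)).imp (Fb v y))

def acc1 (η : K) (y : I) : RO (Tri Λ Q) := (gv m η (y, true)).and
  (RO.all fun ξ : {ξ // ξ < η} => RO.all fun v => (acc0 m Fb ξ v).imp (inc Le y v))

def accs (y : I) : RO (Tri Λ Q) := RO.ex fun η => acc1 m Le Fb η y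

def fresh (t : Fm Λ Q) (w : I) : RO (Tri Λ Q) := RO.all fun ξ : {ξ // ξ ∉ m.X} => RO.all fun j =>
  RO.all fun v => (Tri.proj.up (t.s (ξ.1, j))).imp ((acc0 m Fb ξ.1 v).imp (inc Le w v))

def vals (c : Tri Λ Q) : Set I := {v | ∃ ξ, ξ ∉ m.X ∧ ∃ j r, (c.f.s (ξ, j)).s r ∧ (m.e j).1 = v}

structure Gx (p0 : Tri Λ Q) : Prop where
  c1 : ∀ y d p, p ≤ p0 → (In y d).s p → ∃ q, leX m.X q p ∧
    ∃ w, (Le d w).s (mix m.X q p.f) ∧ ∀ v ∈ vals m p, ∀ r, r ≤ mix m.X q p.f →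
      ((Fb v y).s r ∨ (inc Le y v).s r) → (inc Le w v).s r
  c2 : ∀ d p, p ≤ p0 → ∃ q, leX m.X q p ∧ ∃ v,
    (Le d v).s (mix m.X q p.f) ∧ ∀ y ∈ vals m p, (Fb v y).s (mix m.X q p.f)

variable {m Le In Fb} {p0 : Tri Λ Q}

omit [LinearOrder K] in
theorem gx (h : RG (Λ.lam m.ζ) Le In Fb p0) (hs : Supp m.X p0) (iL : ∀ a b, Ind m.X p0 (Le a b))
    (iF : ∀ a b, Ind m.X p0 (Fb a b)) : Gx m Le In Fb p0 := by
  have hv : ∀ p : Tri Λ Q, #(vals m p) < Λ.lam m.ζ := fun p =>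
    ((mk_le_mk_of_subset (t := (fun τ : K × K => (m.e τ.2).1) ''
      {τ | Λ.lev τ.1 = m.ζ ∧ ∃ r, (p.f.s τ).s r}) (by
        rintro _ ⟨ξ, h0, j, r, h1, rfl⟩
        exact ⟨(ξ, j), ⟨m.hZ ξ h0, r, h1⟩, rfl⟩)).trans mk_image_le).trans_lt (p.f.sm _)
  refine ⟨fun y d p hp h1 => ?_, fun d p hp => ?_⟩
  · obtain ⟨q, h2, w, h3, h4⟩ := h.h1 y d _ (hv p) p hp h1
    refine ⟨q, leX_of_le h2, w, iL _ _ q _ (h2.trans hp) (mix_leX _ _) h3,
      fun v hv r hr h5 => ?_⟩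
    have h6 := hr.trans ((mix_le_right (leX_of_le h2)).trans hp)
    have h7 := mix_le_right ((leX_of_le hr).trans (mix_leX _ _))
    exact Ind.inc hs iL _ _ _ r (h7.trans (h2.trans hp)) (leX_mix _ _) (h4 v hv _ h7
      (h5.imp (iF _ _ r _ h6 (mix_leX _ _)) (Ind.inc hs iL _ _ r _ h6 (mix_leX _ _))))
  · obtain ⟨q, h2, v, h3, h4⟩ := h.h2 d _ (hv p) p hp
    exact ⟨q, leX_of_le h2, v, iL _ _ q _ (h2.trans hp) (mix_leX _ _) h3,
      fun y hy => iF _ _ q _ (h2.trans hp) (mix_leX _ _) (h4 y hy)⟩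

omit [LinearOrder K] in
theorem gv_intro {ξ j : K} {c : Tri Λ Q} (h0 : ξ ∉ m.X) (h : (c.f.s (ξ, j)).s c.q) :
    (gv m ξ (m.e j)).s c :=
  fun r hr => ⟨r, le_rfl, h0, j, hr.2 _ _ le_rfl (RO.mono h hr.1), rfl⟩

theorem acc_inv {ξ η : K} {v y : I} {c : Tri Λ Q} (h0 : (acc0 m Fb ξ v).s c)
    (h1 : (acc1 m Le Fb η y).s c) : (Fb v y).s c ∨ (inc Le y v).s c := by
  rcases lt_trichotomy η ξ with h | rfl | h
  · exact Or.inl (h0.2 ⟨η, h⟩ y c le_rfl h1.1)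
  · obtain ⟨r, hr, -, j, h2, h3⟩ := h0.1 c le_rfl
    obtain ⟨t, ht, -, j', h4, h5⟩ := h1.1 r hr
    obtain rfl := t.f.fn _ _ _ _ (ht.2 _ _ le_rfl (RO.mono h2 ht.1)) h4
    cases h3.symm.trans h5
  · exact Or.inr (h1.2 ⟨ξ, h⟩ v c le_rfl h0)

omit [LinearOrder K] in
theorem mix_a (p : Tri Λ Q) (t : Fm Λ Q) (ξ : {ξ // ξ ∉ m.X}) (j : K) :
    (mix m.X p t).f.s (ξ.1, j) = t.s (ξ.1, j) := mix_out ξ.2

theorem fresh_mix (p : Tri Λ Q) (t : Fm Λ Q) (w : I) :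
    fresh m Le Fb (mix m.X p t).f w = fresh m Le Fb t w := by
  simp only [fresh, mix_a]

theorem dd_elim {c : Tri Λ Q} {b : I}
    (h : (DD In (accs m Le Fb) b).s c) : ∃ c', c' ≤ c ∧ ∃ y η,
      (acc1 m Le Fb η y).s c' ∧ (In y b).s c' := by
  obtain ⟨c1, h1, y, h2, h3⟩ := h c le_rfl
  obtain ⟨c2, h4, η, h5⟩ := h2 c1 le_rfl
  exact ⟨c2, h4.trans h1, y, η, h5, RO.mono h3 h4⟩

theorem fresh_above (g : Gx m Le In Fb p0) {c : Tri Λ Q} (hc : c ≤ p0)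
    {b : I} (hb : (DD In (accs m Le Fb) b).s c) :
    ∃ c', c' ≤ c ∧ ∃ w, (Le b w).s c' ∧ (fresh m Le Fb c'.f w).s c' := by
  obtain ⟨c1, h1, y, η, h3, h4⟩ := dd_elim hb
  obtain ⟨q, h9, w, h11, h12⟩ := g.c1 y b c1 (h1.trans hc) h4
  have h13 := mix_le_right h9
  refine ⟨_, h13.trans h1, w, h11, ?_⟩
  rw [fresh_mix]
  intro ξ j v r hr h14 t ht h15
  refine RO.reg fun t1 h16 => ?_
  obtain ⟨t2, h17, -, j', h18, h19⟩ := h15.1 t1 h16
  have h20 := h17.trans (h16.trans (ht.trans hr))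
  obtain rfl := t2.f.fn _ _ _ _ h18 ((h20.trans h13).2 _ _ le_rfl
    (RO.mono (a := c1.f.s _) h14 (h17.trans (h16.trans ht)).1))
  exact ⟨t2, h17, h12 v ⟨ξ.1, ξ.2, j', _, h14, congrArg Prod.fst h19⟩ t2 h20 (acc_inv
    (RO.mono h15 (h17.trans h16)) (RO.mono h3 (h20.trans h13)))⟩

variable [WellFoundedLT K]

theorem accept {c : Tri Λ Q} {u : I} (h : (fresh m Le Fb c.f u).s c) :
    ∃ c', c' ≤ c ∧ (accs m Le Fb u).s c' := by
  obtain ⟨j, h1, h2⟩ := m.eS u true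
  obtain ⟨c', h3, ξ, h0, h4, h5⟩ := exists_add c m.hZ m.hc h1
  refine ⟨c', h3, RO.ex_intro ξ ⟨h2 ▸ gv_intro h0 h4, fun η v r hr h6 => RO.reg fun w hw => ?_⟩⟩
  obtain ⟨w1, h7, h12, j', h8, -⟩ := h6.1 w hw
  obtain ⟨t, h9, h10⟩ := h5 η h12 η.2 w1 (h7.trans (hw.trans hr)) j' h8
  have h11 := (Tri.cut h9).trans h7
  exact ⟨_, h11, h ⟨η, h12⟩ j' v _ (h11.trans (hw.trans (hr.trans h3))) h10 _ le_rfl
    (RO.mono h6 (h11.trans hw))⟩

theorem nowhere {θ : Cardinal.{u}} (h : RG θ Le In Fb p0) (g : Gx m Le In Fb p0) {c : Tri Λ Q}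
    (hc : c ≤ p0) (b : I) :
    ∃ c', c' ≤ c ∧ ∃ v, (Le b v).s c' ∧ (DD In (accs m Le Fb) v).not.s c' := by
  obtain ⟨q, h9, v, h11, h12⟩ := g.c2 b c hc
  have h13 := mix_le_right h9
  obtain ⟨j, h14, h15⟩ := m.eS v false
  obtain ⟨c3, h16, ξ, h0, h17, h18⟩ := exists_add (mix m.X q c.f) m.hZ m.hc h14
  have h19 : (acc0 m Fb ξ v).s c3 := ⟨h15 ▸ gv_intro h0 h17, fun η y r hr h6 => by
    obtain ⟨w1, h7, h1, j', h8, h9⟩ := h6 r le_rfl
    obtain ⟨t, -, h10⟩ := h18 η h1 η.2 w1 (h7.trans hr) j' h8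
    exact RO.mono (h12 y ⟨η, h1, j', t, mix_a q c.f ⟨η, h1⟩ _ ▸ h10, congrArg Prod.fst h9⟩)
      (hr.trans h16)⟩
  have h20 := h16.trans h13
  refine ⟨c3, h20, v, RO.mono h11 h16, fun r hr h21 => ?_⟩
  obtain ⟨r', h22, y', η', h23, h24⟩ := dd_elim h21
  exact h.h3 v y' r' (h22.trans (hr.trans (h20.trans hc))) h24
    (acc_inv (RO.mono h19 (h22.trans hr)) h23)

omit [WellFoundedLT K]

variable (m Le Fb) (O : ℕ → I → RO (Tri Λ Q)) (t0 : Fm Λ Q) (w0 : I)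

def Stp (n : ℕ) (t : Fm Λ Q) (w u : I) (p : Tri Λ Q) (d : Fm Λ Q × I) : Prop :=
  leT m.X p.q d.1 t ∧ (Le u d.2).s (mix m.X p d.1) ∧
    (((fresh m Le Fb t w).and (Le w u)).imp ((fresh m Le Fb d.1 d.2).and
      (RO.ex fun b => (O n b).and (Le b d.2)))).s (mix m.X p d.1)

def VX : List (I × I) → Tri Λ Q → Fm Λ Q → Prop
  | [], _, t => t = t0
  | a :: s, p, t' => ∃ t, VX s p t ∧ Stp m Le Fb O s.length t (lastw w0 s) a.1 p (t', a.2) ∧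
      ∀ d, WellOrderingRel d (t', a.2) → ∀ p', leX m.X p' p →
        ¬ Stp m Le Fb O s.length t (lastw w0 s) a.1 p' d

variable {m Le Fb O t0 w0}

theorem VX.mono {s : List (I × I)} {p p' : Tri Λ Q} {t : Fm Λ Q}
    (h : VX m Le Fb O t0 w0 s p t) (hp : leX m.X p' p) : VX m Le Fb O t0 w0 s p' t := by
  induction s generalizing t with
  | nil => exact h
  | cons a s ih =>
    obtain ⟨t1, h1, ⟨h2, h4, h5⟩, h6⟩ := h
    exact ⟨t1, ih h1, ⟨h2.mono hp.1, RO.mono h4 (mix_mono hp leT_rfl),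
      RO.mono h5 (mix_mono hp leT_rfl)⟩, fun d h7 r hr => h6 d h7 r (hr.trans hp)⟩

theorem VX.fn' {s : List (I × I)} {p : Tri Λ Q} {u w w' : I} {t t' : Fm Λ Q}
    (ih : ∀ t t', VX m Le Fb O t0 w0 s p t → VX m Le Fb O t0 w0 s p t' → t = t')
    (h : VX m Le Fb O t0 w0 ((u, w) :: s) p t) (h' : VX m Le Fb O t0 w0 ((u, w') :: s) p t') :
    (t, w) = (t', w') := by
  obtain ⟨d0, h1, h2, h3⟩ := h
  obtain ⟨d1, h4, h5, h6⟩ := h'
  obtain rfl := ih _ _ h1 h4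
  rcases trichotomous_of WellOrderingRel (t, w) (t', w') with h7 | h7 | h7
  · exact absurd h2 (h6 _ h7 p (leX_of_le le_rfl))
  · exact h7
  · exact absurd h5 (h3 _ h7 p (leX_of_le le_rfl))

theorem VX.fn {s : List (I × I)} {p : Tri Λ Q} : ∀ t t', VX m Le Fb O t0 w0 s p t →
    VX m Le Fb O t0 w0 s p t' → t = t' := by
  induction s with
  | nil => exact fun _ _ h h' => Eq.trans h (Eq.symm h')
  | cons a s ih => exact fun _ _ h h' => congrArg Prod.fst (VX.fn' ih h h')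

theorem VX.init {s : List (I × I)} {p : Tri Λ Q} {t : Fm Λ Q}
    (h : VX m Le Fb O t0 w0 s p t) : leT m.X p.q t t0 := by
  induction s generalizing t with
  | nil => exact h ▸ leT_rfl
  | cons a s ih => exact let ⟨_, h1, h2, _⟩ := h; h2.1.trans (ih h1)

theorem VX.ext [WellFoundedLT K] {θ : Cardinal.{u}} (h : RG θ Le In Fb p0) (g : Gx m Le In Fb p0)
    {q : Tri Λ Q} (hq : q ≤ p0)
    (hO : Mea Le (DD In (accs m Le Fb)) O q) {s : List (I × I)} {p : Tri Λ Q} {t : Fm Λ Q}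
    (hp : mix m.X p t0 ≤ q) (h1 : VX m Le Fb O t0 w0 s p t) (u : I) :
    ∃ p', leX m.X p' p ∧ ∃ t' w', VX m Le Fb O t0 w0 ((u, w') :: s) p' t' := by
  have h2 := (mix_mono (leX_of_le le_rfl) h1.init).trans hp
  have key : ∃ d p', leX m.X p' p ∧ Stp m Le Fb O s.length t (lastw w0 s) u p' d := by
    by_cases h3 : ((fresh m Le Fb t (lastw w0 s)).and (Le (lastw w0 s) u)).s (mix m.X p t)
    · obtain ⟨c1, h4, h5⟩ := accept (Le := Le) (Fb := Fb) (c := mix m.X p t) (u := u) (by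
        rw [fresh_mix]
        exact fun ξ j v r hr h4 w hw h5 => h.inc_up (hw.trans (hr.trans (h2.trans hq)))
          (h3.1 ξ j v r hr h4 w hw h5) (RO.mono h3.2 (hw.trans hr)))
      obtain ⟨c2, h6, b, h7, h8, h9⟩ := hO.de s.length u c1 (h4.trans h2)
        (RO.ex_intro u ⟨h5, RO.mono (h.h4 u) (h4.trans (h2.trans hq))⟩)
      obtain ⟨c3, h10, w, h12, h13⟩ := fresh_above g (h6.trans (h4.trans (h2.trans hq))) h8
      have h14 := le_mix.1 (h10.trans (h6.trans h4))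
      have h15 := mix_le_right (leX_of_le (X := m.X) (le_refl c3))
      exact ⟨(c3.f, w), c3, h14.1, h14.2, RO.mono (h.tr _ _ _ _ (RO.mono h7 h10) h12) h15,
        fun r hr _ => RO.mono (a := RO.and _ _) ⟨h13, RO.ex_intro b ⟨RO.mono h9 h10, h12⟩⟩
          (hr.trans h15)⟩
    · obtain ⟨c, h4, h5⟩ := RO.exists_not h3
      have h15 := mix_le_right (leX_of_le (X := m.X) (le_refl c))
      exact ⟨(c.f, u), c, (le_mix.1 h4).1, (le_mix.1 h4).2,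
        RO.mono (h.rf u) (h15.trans (h4.trans (h2.trans hq))),
        fun r hr h6 => absurd h6 (h5 r (hr.trans h15))⟩
  obtain ⟨d, ⟨p', h3, h4⟩, h5⟩ := WellFounded.has_min (IsWellFounded.wf (r := WellOrderingRel))
    {d | ∃ p', leX m.X p' p ∧ Stp m Le Fb O s.length t (lastw w0 s) u p' d} key
  exact ⟨p', h3, d.1, d.2, t, h1.mono h3, h4, fun d' h6 r hr h7 => h5 d' ⟨r, hr.trans h3, h7⟩ h6⟩

theorem VX.coh [LinearOrder I] {Val : List (I × I) → Tri Λ Q → Prop}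
    (vf : ∀ u w w' s p, Val ((u, w) :: s) p → Val ((u, w') :: s) p → w = w')
    {z : I} {r : Tri Λ Q} {s s' : List (I × I)} {t t' : Fm Λ Q} (h : s.length ≤ s'.length)
    (h1 : Pl Le w0 Val s z r) (h2 : Pl Le w0 Val s' z r) (h3 : VX m Le Fb O t0 w0 s r t)
    (h4 : VX m Le Fb O t0 w0 s' r t') : leT m.X r.q t' t := by
  induction s' generalizing t' with
  | nil => exact VX.fn _ _ h3 (Pl.uniq vf _ _ (by simpa using h) h1 h2 ▸ h4) ▸ leT_rfl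
  | cons a s' ih =>
    rcases h.lt_or_eq with h5 | h5
    · obtain ⟨t1, h6, h7, -⟩ := h4
      exact h7.1.trans (ih (Nat.lt_succ_iff.1 h5) h2.1 h6)
    · exact VX.fn _ _ h3 (Pl.uniq vf _ _ h5 h1 h2 ▸ h4) ▸ leT_rfl

theorem VX.fresh [LinearOrder I] {Val : List (I × I) → Tri Λ Q → Prop} {z : I}
    {s : List (I × I)} {p c : Tri Λ Q} {t : Fm Λ Q} (h0 : (fresh m Le Fb t0 w0).s c)
    (h1 : VX m Le Fb O t0 w0 s p t) (h2 : Pl Le w0 Val s z c) (hc : c ≤ mix m.X p t) :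
    (fresh m Le Fb t (lastw w0 s)).s c ∧
      ∀ n, s.length = n + 1 → (RO.ex fun b => (O n b).and (Le b (lastw w0 s))).s c := by
  induction s generalizing t with
  | nil => exact ⟨h1 ▸ h0, by simp⟩
  | cons a s ih =>
    obtain ⟨t1, h3, h4, -⟩ := h1
    have h5 := h4.2.2 c hc ⟨(ih h3 h2.1 (hc.trans (mix_mono (leX_of_le le_rfl) h4.1))).1, h2.2.1⟩
    exact ⟨h5.1, fun n hn => by
      obtain rfl : s.length = n := by simpa using hn
      exact h5.2⟩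

theorem refl0 [WellFoundedLT K] [hF : Fact (First k Q)] [Nonempty I]
    (h : RG (Λ.lam m.ζ) Le In Fb p0) (hs : Supp m.X p0) (iL : ∀ a b, Ind m.X p0 (Le a b))
    (iF : ∀ a b, Ind m.X p0 (Fb a b))
    (H : ∀ (A : I → RO (Tri Λ Q)) p, p ≤ p0 → (∀ d r, r ≤ p →
      (DD In A d).s r → ∃ t, t ≤ r ∧ ∃ v, (Le d v).s t ∧ (DD In A v).not.s t) →
      ∃ q, q ≤ p ∧ ∃ O, Mea Le (DD In A) O q) : False := by
  obtain ⟨_, _⟩ := exists_wellFoundedLT I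
  obtain ⟨y0⟩ := ‹Nonempty I›
  have g0 := gx h hs iL iF
  obtain ⟨c, w0, O, b1, b2, b3⟩ : ∃ c w O, c ≤ p0 ∧ (fresh m Le Fb c.f w).s c ∧
      Mea Le (DD In (accs m Le Fb)) O c := by
    obtain ⟨c1, h2, h3⟩ := accept (Le := Le) (Fb := Fb) (c := mix m.X p0 Fm.bot) (u := y0) (by
      rw [fresh_mix]
      exact fun _ _ _ _ _ h => h.elim)
    have h4 := h2.trans (mix_le_left hs _)
    obtain ⟨q, h5, O, h6⟩ := H _ c1 h4 fun d r hr _ => nowhere h g0 (hr.trans h4) d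
    obtain ⟨c, h7, w, -, h9⟩ := fresh_above g0 (h5.trans h4)
      (RO.ex_intro y0 ⟨RO.mono h3 h5, RO.mono (h.h4 y0) (h5.trans h4)⟩)
    exact ⟨c, w, O, h7.trans (h5.trans h4), h9,
      fun n a b t ht => h6.op n a b t (ht.trans h7), fun n a t ht => h6.de n a t (ht.trans h7),
      fun a t ht => h6.em a t (ht.trans h7)⟩
  have b4 : leX m.X (c.res m.X) c := c.res_leX
  have hp : c.res m.X ≤ p0 := le_of_leX (b4.trans (leX_of_le b1)) hs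
  let Val : List (I × I) → Tri Λ Q → Prop := fun s p => ∃ t, VX m Le Fb O c.f w0 s p t
  have vx : ∀ s p q, leX m.X q p → Val s p → Val s q := fun s p q hq ⟨t, h2⟩ => ⟨t, h2.mono hq⟩
  have vm : ∀ s p q, q ≤ p → Val s p → Val s q := fun s p q hq => vx s p q (leX_of_le hq)
  have vf : ∀ u w w' s p, Val ((u, w) :: s) p → Val ((u, w') :: s) p → w = w' :=
    fun u w w' s p ⟨t, h3⟩ ⟨t', h4⟩ => congrArg Prod.snd (VX.fn' VX.fn h3 h4)
  obtain ⟨p2, h1, z, h2⟩ := exists_play (w0 := w0) h hp vm (fun p => ⟨_, rfl⟩)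
    fun s p h1 ⟨t, h2⟩ u => by
      obtain ⟨p', h3, t', w', h4⟩ := VX.ext h g0 b1 b3
        (mix_le_right ((leX_of_le h1).trans b4)) h2 u
      obtain ⟨_, -, h5, -⟩ := id h4
      exact ⟨_, mix_le_right h3, w', ⟨t', h4.mono (mix_leX _ _)⟩, iL _ _ _ _ (le_of_leX
        ((mix_leX _ _).trans (h3.trans (leX_of_le (h1.trans hp)))) hs)
        ((mix_leX _ _).trans (leX_mix _ _)) h5.2.1⟩
  have hw := mk_le_aleph0.trans_lt hF.out.w (a := #(ULift.{u} ℕ))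
  obtain ⟨g', h3, S, h4⟩ := star_pre hw
    (fun (n : ULift.{u} ℕ) r => ∃ s : List (I × I), s.length = n.down ∧ Pl Le w0 Val s z r)
    (fun _ _ _ hq ⟨s, h3, h4⟩ => ⟨s, h3, h4.mono vm hq⟩) p2 h2
  let ι := Σ n, S n
  have hι : #ι < k := by
    rw [mk_sigma]; exact sum_lt_of_isRegular hF.out.reg hw fun n => (h4 n).1
  choose s h5 h6' using fun i : ι => ((h4 i.1).2.1 i.2 i.2.2).1
  let g := g'.res m.X
  have b0 : ∀ i : ι, (⟨i.2.1, g'⟩ : Tri Λ Q) ≤ c.res m.X := fun i =>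
    (Tri.mk_le ((h4 i.1).2.1 i.2 i.2.2).2 h3).trans h1
  have h6 : ∀ i : ι, Pl Le w0 Val (s i) z ⟨i.2.1, g⟩ := fun i =>
    (h6' i).leX hs iL vx ((b0 i).trans hp) (Tri.res_leX ⟨i.2.1, g'⟩)
  have b5 : ∀ i : ι, ∃ t, VX m Le Fb O c.f w0 (s i) ⟨i.2.1, g⟩ t := fun i => by
    have := h6 i
    generalize s i = l at this
    cases l
    · exact ⟨_, rfl⟩
    · exact this.2.2.1
  choose t b8 using b5
  have b9 : ∀ i : ι, leX m.X ⟨i.2.1, g⟩ (c.res m.X) := fun i =>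
    (Tri.res_leX ⟨i.2.1, g'⟩).trans (leX_of_le (b0 i))
  have b10 : ∀ i : ι, mix m.X ⟨i.2.1, g⟩ (t i) ≤ c := fun i =>
    (mix_mono (b9 i) (b8 i).init).trans (mix_le_right b4)
  have b11 : ∀ i : ι, mix m.X ⟨i.2.1, g⟩ (t i) ≤ ⟨i.2.1, g⟩ := fun i =>
    mix_le_left (p := ⟨i.2.1, g⟩) (fun _ _ h => h.1) _
  obtain ⟨f, hf⟩ := Fm.exists_un (fun i : ι => bl i.2.1)
    (fun i => (mix m.X ⟨i.2.1, g⟩ (t i)).f) (fun _ _ _ _ => hι.trans_le (Λ.kle _))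
    fun i j a b b' r h7 h8 h9 h10 => by
      obtain ⟨r1, h11, h12⟩ := of_bl h7
      obtain ⟨r2, h13, h14⟩ := h8 r1 h11
      have h15 := Tri.mk_le (h13.trans h12) fun _ _ (h : (g.s _).s _) => h
      have h16 := Tri.mk_le h14 fun _ _ (h : (g.s _).s _) => h
      have h17 := RO.mono h9 (h13.trans h11)
      have h18 := RO.mono h10 (h13.trans h11)
      rcases le_total (s i).length (s j).length with h19 | h19
      · exact Fm.fn _ _ _ _ r2 ((mix_mono (leX_of_le le_rfl) (VX.coh vf h19 ((h6 i).mono vm h15)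
          ((h6 j).mono vm h16) ((b8 i).mono (leX_of_le h15)) ((b8 j).mono (leX_of_le h16)))).2
            _ r2 le_rfl h17) h18
      · exact Fm.fn _ _ _ _ r2 h17 ((mix_mono (leX_of_le le_rfl) (VX.coh vf h19
          ((h6 j).mono vm h16) ((h6 i).mono vm h15) ((b8 j).mono (leX_of_le h16))
            ((b8 i).mono (leX_of_le h15)))).2 _ r2 le_rfl h18)
  have b12 : ∀ (i : ι) (d : Tri Λ Q), d ≤ ⟨p2.q, f⟩ → d.q ≤ i.2.1 →
      d ≤ mix m.X ⟨i.2.1, g⟩ (t i) := fun i d h7 h8 => ⟨h8, fun τ r h9 h10 =>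
    h7.2 τ r h9 (hf τ ▸ RO.ex_intro i ⟨bl_of_le (h9.trans h8), h10⟩)⟩
  have b13 : ∀ n d, d ≤ ⟨p2.q, f⟩ → ∃ d', d' ≤ d ∧ ∃ i : ι, i.1 = n ∧
      d' ≤ mix m.X ⟨i.2.1, g⟩ (t i) := fun n d h7 => by
    obtain ⟨e, h8, r, h9, h10⟩ := (h4 n).2.2 d.q h7.1
    exact ⟨_, Tri.cut h9, ⟨n, e, h8⟩, rfl, b12 _ _ ((Tri.cut h9).trans h7) h10⟩
  have b14 := fun (i : ι) d (h7 : d ≤ mix m.X ⟨i.2.1, g⟩ (t i)) =>
    VX.fresh (RO.mono b2 (h7.trans (b10 i))) (b8 i) ((h6 i).mono vm (h7.trans (b11 i))) h7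
  obtain ⟨c1, h7, h8⟩ := accept (m := m) (Le := Le) (Fb := Fb) (c := ⟨p2.q, f⟩) (u := z)
    fun ξ j v r hr h7 d hd h8 => RO.reg fun d1 h9 => by
      have h10 : (f.s (ξ.1, j)).s d1.q := RO.mono h7 (h9.trans hd).1
      obtain ⟨r1, h11, i, h12, h13⟩ := (hf _ ▸ h10) d1.q le_rfl
      obtain ⟨r2, h14, h15⟩ := of_bl h12
      have h16 := Tri.cut (h14.trans h11)
      have h17 := b12 i _ (h16.trans (h9.trans (hd.trans hr))) h15
      exact ⟨_, h16, h.inc_up (h17.trans ((b10 i).trans b1)) ((b14 i _ h17).1 ξ j v _ le_rfl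
        (RO.mono (a := (t i).s _) (mix_a _ (t i) ξ j ▸ h13) h14) _ le_rfl (RO.mono h8 (h16.trans h9)))
        ((h6 i).mono vm (h17.trans (b11 i))).last⟩
  obtain ⟨c2, h9, i, -, h10⟩ := b13 ⟨0⟩ c1 h7
  have h11 := h10.trans (b10 i)
  have h12 : (DD In (accs m Le Fb) z).s c2 :=
    RO.ex_intro z ⟨RO.mono h8 h9, RO.mono (h.h4 z) (h11.trans b1)⟩
  refine b3.em z c2 h11 h12 fun n => RO.reg fun d hd => ?_
  obtain ⟨d1, h13, j, h14, h15⟩ := b13 ⟨n + 1⟩ d (hd.trans (h9.trans h7))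
  obtain ⟨d2, h16, b, h17, h18⟩ := (b14 j d1 h15).2 n (by rw [h5, h14]) d1 le_rfl
  exact ⟨d2, h16.trans h13, b3.op n b z d2 (h16.trans (h15.trans (b10 j))) h17 (h.tr _ _ _ _ h18
    ((h6 j).mono vm (h16.trans (h15.trans (b11 j)))).last)
    (RO.mono h12 (h16.trans (h13.trans hd)))⟩

omit [LinearOrder K] in
theorem refl1 [hF : Fact (First k Q)] [Nonempty I] (ζ : W1.{u}) (hI : #I ≤ 2 ^ Λ.lam ζ)
    (h : RG (Λ.lam ζ) Le In Fb p0)
    (H : ∀ (A : I → RO (Tri Λ Q)) p, p ≤ p0 → (∀ d r, r ≤ p →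
      (DD In A d).s r → ∃ t, t ≤ r ∧ ∃ v, (Le d v).s t ∧ (DD In A v).not.s t) →
      ∃ q, q ≤ p ∧ ∃ O, Mea Le (DD In A) O q) : False := by
  classical
  obtain ⟨_, _⟩ := exists_wellFoundedLT K
  have w1 : ℵ₀ ≤ 2 ^ Λ.lam ζ := (Λ.reg ζ).1.trans (cantor _).le
  have hB : #(I × ULift.{u} Bool) ≤ 2 ^ Λ.lam ζ := by
    rw [mk_prod, lift_id, lift_id]
    exact (mul_le_mul' hI (mk_le_aleph0.trans w1)).trans (mul_eq_self w1).le
  let φ : I × I × ULift.{u} Bool → RO (Tri Λ Q) := fun a =>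
    if a.2.2.down then Le a.1 a.2.1 else Fb a.1 a.2.1
  obtain ⟨g, h1, X, h2, h3, h4⟩ := starS ζ (ι := I × I × ULift.{u} Bool) (by
      rw [mk_prod, lift_id, lift_id]
      exact (mul_le_mul' hI hB).trans (mul_eq_self w1).le)
    (fun a c => (φ a).s c ∨ (φ a).not.s c)
    (fun _ _ _ h h' => h'.imp (fun h' => RO.mono h' h) fun h' => RO.mono h' h) p0
    fun a q _ => RO.decide _ q
  have hp : (⟨p0.q, g⟩ : Tri Λ Q) ≤ p0 := Tri.mk_le le_rfl h1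
  let Z : Set K := {a | Λ.lev a = ζ} \ (X ∪ lsup ζ g)
  have z1 : Λ.lam ζ ≤ #Z := by
    by_contra hc
    refine (Λ.big ζ).not_ge ((mk_le_mk_of_subset (t := Z ∪ (X ∪ lsup ζ g)) fun a ha => ?_).trans
      (Order.lt_succ_iff.1 (reg_un (isRegular_succ w1) (Order.lt_succ_iff.2
        ((not_le.1 hc).le.trans (cantor _).le)) (reg_un (isRegular_succ w1) (Order.lt_succ_iff.2 h3)
        (Order.lt_succ_iff.2 ((card_lsup ζ g).le.trans (cantor _).le))))))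
    by_cases h5 : a ∈ X ∪ lsup ζ g
    · exact Or.inr h5
    · exact Or.inl ⟨ha, h5⟩
  obtain ⟨e⟩ : Nonempty (I × ULift.{u} Bool ↪ Λ.val ζ) := by
    rw [← Cardinal.le_def, Λ.cv]; exact hB
  let e' : I × Bool → K := fun a => e (a.1, ⟨a.2⟩)
  have he : Function.Injective e' := fun a b h5 => by
    have := e.injective (Subtype.ext h5)
    exact Prod.ext (Prod.mk.inj this).1 (congrArg ULift.down (Prod.mk.inj this).2)
  let m : Cf Λ I := ⟨ζ, Zᶜ, Function.invFun e', fun a ha => (not_not.1 ha).1, by rwa [compl_compl],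
    fun i b => ⟨e' (i, b), (e _).2, Function.leftInverse_invFun he _⟩⟩
  have s1 : ∀ τ r, (g.s τ).s r → τ.1 ∈ Zᶜ := fun τ r h5 h6 =>
    h6.2 (Or.inr ⟨h6.1.le, τ.2, r, h5⟩)
  have k1 : ∀ a, Ind Zᶜ ⟨p0.q, g⟩ (φ a) := fun a c c2 h5 h6 h7 => RO.by_contra fun c3 h8 h9 => by
    have h10 := (leX_of_le h8).trans h6
    obtain ⟨c', h11, h12⟩ := h4 a c3 (le_of_leX (h10.trans (leX_of_le h5)) s1)
    have h13 : c' ≤ mix X c' g := le_mix.2 ⟨leX_of_le le_rfl, fun τ r _ =>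
      (h11.trans (le_of_leX (h10.trans (leX_of_le h5)) s1)).2 τ r⟩
    have h14 := h12.resolve_left fun h14 => h9 c' h11 (RO.mono h14 h13)
    refine h14 _ (le_of_leX ((mix_leX (X := Zᶜ) c' c.f).trans (leX_of_le h13)) fun τ r h15 => ?_)
      (RO.mono h7 (mix_le_right ((leX_of_le h11).trans h10)))
    by_cases h16 : τ.1 ∈ X
    · exact fun h17 => h17.2 (Or.inl h16)
    · rw [mix_out h16] at h15
      exact s1 τ r h15
  exact refl0 (m := m) (h.mono hp) s1 (fun a b => k1 (a, b, ⟨true⟩)) (fun a b => k1 (a, b, ⟨false⟩))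
    fun A p h5 => H A p (h5.trans hp)

end Pool.Agent.Lib.MP_0fa4a2_gt.BB
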