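import Pool.Agent.Lib.MP_0fa4a2_gt.NecData

/-! The space obtained from the data, with a bound on its size. -/

namespace Pool.Agent.Lib.MP_0fa4a2_gt.Nec

open Set TopologicalSpace Cardinal

universe u

theorem space_of_tree' {T : Type u} [PartialOrder T] [WellFoundedLT T] (hT : IsTree T)
    {X : Set (Set T)} (hX : Branches X) (hc : ∀ x ∈ X, x.Countable)
    (two : ∀ t : T, ∃ x ∈ X, ∃ y ∈ X, t ∈ x ∧ t ∈ y ∧ x ≠ y)
    (nd : ∀ D : Set T, (∀ t ∈ D, ∀ s, s ≤ t → s ∈ D) → (∀ t, ∃ t', t ≤ t' ∧ t' ∉ D) →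
      SDisc X {t | ∀ s < t, s ∈ D})
    (baire : ∀ D : ℕ → Set T, (∀ n, ∀ t ∈ D n, ∀ s, s ≤ t → s ∈ D n) →
      (∀ n t, ∃ t', t ≤ t' ∧ t' ∉ D n) → ∃ t, ∀ n, t ∉ D n) :
    ∃ _ : TopologicalSpace X, T1Space X ∧ PerfectlyNormalSpace X ∧
      (∃ B : Set (Set X), IsTopologicalBasis B ∧ (∀ p, IsChain (· ⊆ ·) {b ∈ B | p ∈ b}) ∧
        ∀ p, {b ∈ B | p ∈ b}.Countable) ∧ ¬ MetrizableSpace X := by
  let B : T → Set X := fun t => {x | t ∈ x.1}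
  let τ : TopologicalSpace X := generateFrom (range B)
  have anti : ∀ {s t : T}, s ≤ t → B t ⊆ B s := fun h x hx => hX.lower _ x.2 _ hx _ h
  have cmp : ∀ {s t : T} {x : X}, x ∈ B s → x ∈ B t → s ≤ t ∨ t ≤ s := fun {s t x} h h' =>
    hX.chain _ x.2 s h t h'
  have hB : IsTopologicalBasis (range B) := by
    refine ⟨?_, eq_univ_of_forall fun x => ?_, rfl⟩
    · rintro _ ⟨s, rfl⟩ _ ⟨t, rfl⟩ x ⟨h, h'⟩
      rcases cmp h h' with e | e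
      · exact ⟨_, ⟨t, rfl⟩, h', subset_inter (anti e) Subset.rfl⟩
      · exact ⟨_, ⟨s, rfl⟩, h, subset_inter Subset.rfl (anti e)⟩
    · obtain ⟨s, hs⟩ := hX.ne _ x.2
      exact ⟨_, ⟨s, rfl⟩, hs⟩
  have op : ∀ t, IsOpen (B t) := fun t => hB.isOpen ⟨t, rfl⟩
  have ext : ∀ {U : Set X}, IsOpen U → ∀ t, ∀ x ∈ U, x ∈ B t → ∃ s, t ≤ s ∧ B s ⊆ U := by
    intro U hU t x h h'
    obtain ⟨_, ⟨s, rfl⟩, h1, h2⟩ := hB.exists_subset_of_mem_open h hU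
    rcases cmp h1 h' with e | e
    · exact ⟨t, le_rfl, (anti e).trans h2⟩
    · exact ⟨s, e, h2⟩
  refine ⟨τ, t1Space_iff_exists_open.2 fun x y hxy => ?_, top_perf fun U hU => ?_,
    ⟨range B, hB, fun p => ?_, fun p => ?_⟩, fun hm => ?_⟩
  · by_contra hn
    have h1 : x.1 ⊆ y.1 := fun t ht => by_contra fun h => hn ⟨B t, op t, ht, h⟩
    obtain ⟨a, h2, h3⟩ := exists_of_ssubset (h1.ssubset_of_ne fun e => hxy (Subtype.ext e))
    obtain ⟨s, h4, h5⟩ := hX.unb _ x.2 a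
    exact h3 (hX.lower _ x.2 s h4 a ((hX.chain _ y.2 s (h1 h4) a h2).resolve_left h5))
  · obtain ⟨A, h1, h2⟩ := nd {t | ¬ B t ⊆ U ∧ (B t ∩ U).Nonempty}
      (fun t ht s e => ⟨fun h => ht.1 ((anti e).trans h),
        ht.2.mono (inter_subset_inter_left _ (anti e))⟩)
      fun t => by
        by_cases ht : (B t ∩ U).Nonempty
        · obtain ⟨x, h, h'⟩ := ht
          obtain ⟨s, e, h3⟩ := ext hU t x h' h
          exact ⟨s, e, fun h4 => h4.1 h3⟩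
        · exact ⟨t, le_rfl, fun h => ht h.2⟩
    refine ⟨fun n => {x | ∃ a ∈ A n, B a ⊆ U ∧ x ∈ B a}, fun n => ⟨⟨?_⟩, ?_⟩,
      Subset.antisymm (iUnion_subset fun n x ⟨a, _, h3, h4⟩ => h3 h4) fun x hx => ?_⟩
    · refine hB.isOpen_iff.2 fun x hx => ?_
      obtain ⟨s, h3, h4⟩ := (h1 n).2 _ x.2
      refine ⟨_, ⟨s, rfl⟩, h3, fun y hy ⟨a, h5, h6, h7⟩ => hx ⟨a, h5, h6, ?_⟩⟩
      exact anti ((cmp hy h7).resolve_left (h4 a h5)) h3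
    · exact hB.isOpen_iff.2 fun x ⟨a, h3, h4, h5⟩ =>
        ⟨_, ⟨a, rfl⟩, h5, fun y hy => ⟨a, h3, h4, hy⟩⟩
    · obtain ⟨_, ⟨s, rfl⟩, h3⟩ := hB.exists_subset_of_mem_open hx hU
      obtain ⟨a, ⟨h4, h5⟩, h6⟩ := wellFounded_lt.has_min {a | x ∈ B a ∧ B a ⊆ U} ⟨s, h3⟩
      obtain ⟨n, h7⟩ := mem_iUnion.1 (h2 (a := a) fun s e =>
        ⟨fun h => h6 s ⟨anti e.le h4, h⟩ e, x, anti e.le h4, hx⟩)
      exact mem_iUnion.2 ⟨n, a, h7, h5, h4⟩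
  · rintro _ ⟨⟨s, rfl⟩, h⟩ _ ⟨⟨t, rfl⟩, h'⟩ -
    exact (cmp h' h).imp anti anti
  · refine ((hc _ p.2).image B).mono ?_
    rintro _ ⟨⟨s, rfl⟩, h⟩
    exact ⟨s, h, rfl⟩
  · obtain ⟨d, h1, h2⟩ := top_met (Y := X)
    obtain ⟨t, ht⟩ := baire (fun n => {t | ∃ x ∈ B t, ∃ y ∈ B t, 1 / (n + 1 : ℝ) ≤ d x y})
      (fun n t ⟨x, h, y, h', h3⟩ s e => ⟨x, anti e h, y, anti e h', h3⟩)
      fun n t => by
        obtain ⟨x, hx, -, -, h, -⟩ := two t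
        obtain ⟨U, h3, h4, h5⟩ := h2 ⟨x, hx⟩ _ (Nat.one_div_pos_of_nat (n := n))
        obtain ⟨s, e, h6⟩ := ext h3 t _ h4 h
        exact ⟨s, e, fun ⟨y, a, z, b, c⟩ => (h5 y (h6 a) z (h6 b)).not_ge c⟩
    obtain ⟨x, hx, y, hy, a, b, c⟩ := two t
    obtain ⟨n, hn⟩ := exists_nat_one_div_lt (h1 ⟨x, hx⟩ ⟨y, hy⟩ fun e => c (congrArg Subtype.val e))
    exact ht n ⟨_, a, _, b, hn.le⟩

variable {W M : Type u} [LinearOrder W] [WellFoundedLT W]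

open Dat in
theorem Dat.space' (D : Dat W M) :
    ∃ _ : TopologicalSpace D.X, T1Space D.X ∧ PerfectlyNormalSpace D.X ∧
      (∃ B : Set (Set D.X), IsTopologicalBasis B ∧ (∀ p, IsChain (· ⊆ ·) {b ∈ B | p ∈ b}) ∧
        ∀ p, {b ∈ B | p ∈ b}.Countable) ∧ ¬ MetrizableSpace D.X := by
  refine space_of_tree' isTree D.branches (fun x hx => hx.1) two_branches ?_ ?_
  · intro E _ hE
    obtain ⟨F, hF, h⟩ := D.escape hE
    refine press_lab isTree D.branches (fun t => t.1.N) (fun t => t.cond.ct.1) F hF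
      (fun a y _ => D.sdisc_notMem y) (fun t ht s hs v hv => ht v (hv.trans_le hs)) ?_
    intro t ht hl
    have hn : ¬ Closed F t.1.N := fun hc => by
      obtain ⟨s, h1, h2⟩ := h t hl hc
      exact h2 (ht s h1)
    simp only [Closed, not_forall] at hn
    obtain ⟨a, ha, hn⟩ := hn
    obtain ⟨y, h1, h2⟩ := not_subset.1 hn
    obtain ⟨v, h3, h4⟩ := Tr.lim_finset hl ha
    exact ⟨v, h3, a, h4, y, h1, h2⟩
  · intro E hlow hE
    choose F hF h using fun n => D.escape (hE n)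
    obtain ⟨t, ht, hc⟩ := D.exists_top (fun a => ⋃ n, F n a) fun a =>
      countable_iUnion fun n => hF n a
    refine ⟨t, fun n hn => ?_⟩
    obtain ⟨s, h1, h2⟩ := h n t ht fun a ha => (subset_iUnion (fun n => F n a) n).trans (hc a ha)
    exact h2 (hlow n t hn s h1.le)

theorem Dat.card_X (D : Dat W M) {μ : Cardinal.{u}} (h0 : #M = μ) (h1 : μ ^ ℵ₀ = μ)
    (h2 : ℵ₀ ≤ μ) : #D.X ≤ μ := by
  have h3 : #D.Tr ≤ μ := h0 ▸ mk_le_of_injective (f := fun t : D.Tr => D.cd t.1)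
    fun _ _ h => Dat.Tr.cd_inj h
  have h4 : #{x : Set D.Tr // #x ≤ ℵ₀} ≤ μ :=
    (mk_bounded_set_le _ _).trans ((power_le_power_right (max_le h3 h2)).trans h1.le)
  exact (mk_le_of_injective (f := fun x : D.X => (⟨x.1, le_aleph0_iff_set_countable.2 x.2.1⟩ :
    {x : Set D.Tr // #x ≤ ℵ₀})) fun _ _ h => Subtype.ext (Subtype.mk.inj h)).trans h4

end Pool.Agent.Lib.MP_0fa4a2_gt.Nec
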